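import Mathlib

/-!
# Generalized quadrangles of order (q, q^2): common neighbours of three points
-/

set_option autoImplicit false

namespace Pool.H63.GQ

open Finset Classical

variable {P L : Type*} [Fintype P] [Fintype L] {I : P → L → Prop} {q : ℕ}

/-- two points are collinear (or equal) when some line contains both -/
def Col (I : P → L → Prop) (p p' : P) : Prop := ∃ l, I p l ∧ I p' l

/-- working form of the axioms of a generalized quadrangle of order `(q, q^2)` -/
structure Q (I : P → L → Prop) (q : ℕ) : Prop where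
  ln : ∀ p, (univ.filter (fun l => I p l)).card = q ^ 2 + 1
  pt : ∀ l, (univ.filter (fun p => I p l)).card = q + 1
  un : ∀ p p' l l', p ≠ p' → I p l → I p' l → I p l' → I p' l' → l = l'
  ex : ∀ p l, ¬ I p l → ∃ m u, I p m ∧ I u m ∧ I u l
  tr : ∀ p l, ¬ I p l → ∀ m m' u u', I p m → I p m' → I u m → I u l → I u' m' → I u' l → m = m'

omit [Fintype P] [Fintype L] in
theorem Col.symm {p p' : P} (h : Col I p p') : Col I p' p := by
  obtain ⟨l, h1, h2⟩ := h
  exact ⟨l, h2, h1⟩

omit [Fintype P] [Fintype L] in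
theorem col_comm {p p' : P} : Col I p p' ↔ Col I p' p := ⟨Col.symm, Col.symm⟩

namespace Q

theorem tri (h : Q I q) {p u u' : P} {l : L} (hp : ¬ I p l) (hu : I u l) (hu' : I u' l)
    (c : Col I p u) (c' : Col I p u') : u = u' := by
  obtain ⟨m, hm, hum⟩ := c
  obtain ⟨m', hm', hum'⟩ := c'
  have := h.tr p l hp m m' u u' hm hm' hum hu hum' hu'
  subst this
  by_contra hne
  have := h.un u u' l m hne hu hu' hum hum'
  subst this
  exact hp hm

theorem refl (h : Q I q) (p : P) : Col I p p := by
  have := h.ln p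
  have h2 : (univ.filter (fun l => I p l)).Nonempty := by
    rw [← Finset.card_pos, this]; positivity
  obtain ⟨l, hl⟩ := h2
  rw [Finset.mem_filter] at hl
  exact ⟨l, hl.2, hl.2⟩

theorem on_line (h : Q I q) {u : P} {l : L} (hu : I u l) :
    (univ.filter (fun p => p ≠ u ∧ I p l)).card = q := by
  have h1 : (univ.filter (fun p => p ≠ u ∧ I p l)) = (univ.filter (fun p => I p l)).erase u := by
    ext p
    simp only [Finset.mem_filter, Finset.mem_erase, Finset.mem_univ, true_and]
  rw [h1, Finset.card_erase_of_mem, h.pt]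
  · rfl
  · simp [hu]

/-- the points other than `u` on some lines through `u` -/
theorem star (h : Q I q) (u : P) (M : Finset L) (hM : ∀ m ∈ M, I u m) (S : Finset P)
    (hS : ∀ p, p ∈ S ↔ p ≠ u ∧ ∃ m ∈ M, I p m) : S.card = M.card * q := by
  have h1 : S = M.biUnion (fun m => univ.filter (fun p => p ≠ u ∧ I p m)) := by
    ext p
    rw [hS]
    simp only [Finset.mem_filter, Finset.mem_biUnion, Finset.mem_univ, true_and]
    constructor
    · rintro ⟨h1, m, hm, h2⟩
      exact ⟨m, hm, h1, h2⟩
    · rintro ⟨m, hm, h1, h2⟩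
      exact ⟨h1, m, hm, h2⟩
  rw [h1, Finset.card_biUnion]
  · rw [Finset.sum_congr rfl (fun m hm => h.on_line (hM m hm))]
    simp
  · intro m hm m' hm' hne
    show Disjoint (univ.filter (fun p => p ≠ u ∧ I p m)) (univ.filter (fun p => p ≠ u ∧ I p m'))
    rw [Finset.disjoint_left]
    intro p hp hp'
    rw [Finset.mem_filter] at hp hp'
    exact hne (h.un p u m m' hp.2.1 hp.2.2 (hM m hm) hp'.2.2 (hM m' hm'))

/-- the points collinear with a given one -/
theorem nb (h : Q I q) (u : P) : (univ.filter (fun p => Col I p u)).card = 1 + (q ^ 2 + 1) * q := by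
  have h1 : (univ.filter (fun p => Col I p u)) =
      insert u (univ.filter (fun p => p ≠ u ∧ ∃ m ∈ univ.filter (fun l => I u l), I p m)) := by
    ext p
    simp only [Finset.mem_filter, Finset.mem_insert, Finset.mem_univ, true_and]
    constructor
    · rintro ⟨l, h1, h2⟩
      by_cases hpu : p = u
      · exact Or.inl hpu
      · exact Or.inr ⟨hpu, l, h2, h1⟩
    · rintro (rfl | ⟨_, l, h1, h2⟩)
      · exact h.refl p
      · exact ⟨l, h2, h1⟩
  rw [h1, Finset.card_insert_of_notMem (by simp),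
    h.star u (univ.filter (fun l => I u l)) (by simp) _ (by simp), h.ln]
  ring

/-- two noncollinear points have `q^2+1` common neighbours -/
theorem cn (h : Q I q) {x y : P} (hxy : ¬ Col I x y) :
    (univ.filter (fun w => Col I w x ∧ Col I w y)).card = q ^ 2 + 1 := by
  have key := Finset.card_mul_eq_card_mul (fun (w : P) (m : L) => I w m)
    (s := univ.filter (fun w => Col I w x ∧ Col I w y)) (t := univ.filter (fun l => I x l))
    (m := 1) (n := 1) ?_ ?_
  · rw [mul_one, mul_one] at key
    rw [key, h.ln]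
  · intro w hw
    simp only [Finset.mem_filter, Finset.mem_univ, true_and] at hw
    obtain ⟨⟨m, hwm, hxm⟩, hwy⟩ := hw
    have hwx : w ≠ x := by
      rintro rfl
      exact hxy hwy
    rw [Finset.card_eq_one]
    refine ⟨m, ?_⟩
    ext m'
    simp only [Finset.mem_bipartiteAbove, Finset.mem_filter, Finset.mem_univ, true_and,
      Finset.mem_singleton]
    constructor
    · rintro ⟨h1, h2⟩
      exact h.un w x m' m hwx h2 h1 hwm hxm
    · rintro rfl
      exact ⟨hxm, hwm⟩
  · intro m hm
    simp only [Finset.mem_filter, Finset.mem_univ, true_and] at hm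
    have hym : ¬ I y m := fun hy => hxy ⟨m, hm, hy⟩
    obtain ⟨m', u, h1, h2, h3⟩ := h.ex y m hym
    rw [Finset.card_eq_one]
    refine ⟨u, ?_⟩
    ext w
    simp only [Finset.mem_bipartiteBelow, Finset.mem_filter, Finset.mem_univ, true_and,
      Finset.mem_singleton]
    constructor
    · rintro ⟨⟨_, hwy⟩, hwm⟩
      exact h.tri hym hwm h3 hwy.symm ⟨m', h1, h2⟩
    · rintro rfl
      exact ⟨⟨⟨m, h3, hm⟩, ⟨m', h2, h1⟩⟩, h3⟩

/-- the points off a line `l` collinear with a point `u` of `l` -/
theorem cls (h : Q I q) {u : P} {l : L} (hu : I u l) :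
    (univ.filter (fun p => ¬ I p l ∧ Col I p u)).card = q ^ 2 * q := by
  have h1 : (univ.filter (fun p => ¬ I p l ∧ Col I p u)) =
      (univ.filter (fun p => p ≠ u ∧ ∃ m ∈ (univ.filter (fun m => I u m)).erase l, I p m)) := by
    ext p
    simp only [Finset.mem_filter, Finset.mem_univ, true_and, Finset.mem_erase]
    constructor
    · rintro ⟨hp, m, h1, h2⟩
      refine ⟨?_, m, ⟨?_, h2⟩, h1⟩
      · rintro rfl; exact hp hu
      · rintro rfl; exact hp h1
    · rintro ⟨hp, m, ⟨h1, h2⟩, h3⟩
      exact ⟨fun hpl => h1 (h.un p u m l hp h3 h2 hpl hu), m, h3, h2⟩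
  rw [h1, h.star u ((univ.filter (fun m => I u m)).erase l)
    (by intro m hm; rw [Finset.mem_erase, Finset.mem_filter] at hm; exact hm.2.2) _ (by simp),
    Finset.card_erase_of_mem (by simp [hu]), h.ln]
  rfl

theorem card_points (h : Q I q) (l : L) : Fintype.card P = (q + 1) * (q ^ 3 + 1) := by
  have key := Finset.card_mul_eq_card_mul (fun (p u : P) => Col I p u)
    (s := univ.filter (fun p => ¬ I p l)) (t := univ.filter (fun u => I u l))
    (m := 1) (n := q ^ 2 * q) ?_ ?_
  · rw [mul_one, h.pt] at key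
    have h2 := Finset.card_filter_add_card_filter_not (s := (univ : Finset P)) (fun p => I p l)
    rw [h.pt, key, Finset.card_univ] at h2
    rw [← h2]; ring
  · intro p hp
    simp only [Finset.mem_filter, Finset.mem_univ, true_and] at hp
    obtain ⟨m, u, h1, h2, h3⟩ := h.ex p l hp
    rw [Finset.card_eq_one]
    refine ⟨u, ?_⟩
    ext w
    simp only [Finset.mem_bipartiteAbove, Finset.mem_filter, Finset.mem_univ, true_and,
      Finset.mem_singleton]
    constructor
    · rintro ⟨h4, h5⟩
      exact h.tri hp h4 h3 h5 ⟨m, h1, h2⟩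
    · rintro rfl
      exact ⟨h3, m, h1, h2⟩
  · intro u hu
    simp only [Finset.mem_filter, Finset.mem_univ, true_and] at hu
    rw [← h.cls hu]
    congr 1
    ext p
    simp only [Finset.mem_bipartiteBelow, Finset.mem_filter, Finset.mem_univ, true_and]

/-- three pairwise noncollinear points have exactly `q+1` common neighbours -/
theorem triad (h : Q I q) {x y z : P} (hxy : ¬ Col I x y) (hzx : ¬ Col I z x) (hzy : ¬ Col I z y) :
    (univ.filter (fun w => (Col I w x ∧ Col I w y) ∧ Col I w z)).card = q + 1 := by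
  set C := univ.filter (fun w => Col I w x ∧ Col I w y) with hC
  set O := univ.filter (fun z => ¬ Col I z x ∧ ¬ Col I z y) with hO
  have hCc : C.card = q ^ 2 + 1 := h.cn hxy
  obtain ⟨l, hl⟩ : ∃ l, I x l := by
    obtain ⟨l, hl, _⟩ := h.refl x
    exact ⟨l, hl⟩
  -- size of O
  have hOc : (O.card : ℤ) = q * (q - 1) * (q ^ 2 + 1) := by
    have h1 := Finset.card_union_add_card_inter (univ.filter (fun p => Col I p x))
      (univ.filter (fun p => Col I p y))
    rw [h.nb, h.nb] at h1
    have h2 : (univ.filter (fun p => Col I p x)) ∩ (univ.filter (fun p => Col I p y)) = C := by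
      ext p; simp [hC]
    rw [h2, hCc] at h1
    have h3 : O = (univ.filter (fun p => Col I p x) ∪ univ.filter (fun p => Col I p y))ᶜ := by
      ext p; simp [hO, not_or]
    have h4 := Finset.card_compl_add_card (univ.filter (fun p => Col I p x) ∪ univ.filter (fun p => Col I p y))
    rw [← h3, h.card_points l] at h4
    have h1' : ((univ.filter (fun p => Col I p x) ∪ univ.filter (fun p => Col I p y)).card : ℤ) +
      (q ^ 2 + 1) = 1 + (q ^ 2 + 1) * q + (1 + (q ^ 2 + 1) * q) := by exact_mod_cast h1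
    have h4' : (O.card : ℤ) + ((univ.filter (fun p => Col I p x) ∪ univ.filter (fun p => Col I p y)).card : ℤ) =
      (q + 1) * (q ^ 3 + 1) := by exact_mod_cast h4
    have : (O.card : ℤ) = (q + 1) * (q ^ 3 + 1) - (1 + (q ^ 2 + 1) * q + (1 + (q ^ 2 + 1) * q) - (q ^ 2 + 1)) := by
      linarith
    rw [this]; ring
  -- facts on common neighbours
  have hCx : ∀ w ∈ C, Col I w x ∧ Col I w y := by
    intro w hw
    simpa [hC] using hw
  have hwx : ∀ w ∈ C, w ≠ x := by
    rintro w hw rfl
    exact hxy (hCx _ hw).2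
  have hwy : ∀ w ∈ C, w ≠ y := by
    rintro w hw rfl
    exact hxy (hCx _ hw).1.symm
  have hnc : ∀ w ∈ C, ∀ w' ∈ C, w ≠ w' → ¬ Col I w w' := by
    rintro w hw w' hw' hne ⟨m, hm, hm'⟩
    by_cases hx : I x m
    · have hy : ¬ I y m := fun hy => hxy ⟨m, hx, hy⟩
      exact hne (h.tri hy hm hm' (hCx _ hw).2.symm (hCx _ hw').2.symm)
    · exact hne (h.tri hx hm hm' (hCx _ hw).1.symm (hCx _ hw').1.symm)
  -- the two degrees
  have hd1 : ∀ w ∈ C, (((O.filter (fun z => Col I w z)).card : ℕ) : ℤ) = (q ^ 2 - 1) * q := by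
    intro w hw
    obtain ⟨⟨a, hwa, hxa⟩, ⟨b, hwb, hyb⟩⟩ := hCx w hw
    have hab : a ≠ b := by
      rintro rfl
      exact hxy ⟨a, hxa, hyb⟩
    have h1 : O.filter (fun z => Col I w z) = univ.filter (fun p => p ≠ w ∧
        ∃ m ∈ ((univ.filter (fun m => I w m)).erase a).erase b, I p m) := by
      ext z
      simp only [hO, Finset.mem_filter, Finset.mem_univ, true_and, Finset.mem_erase]
      constructor
      · rintro ⟨⟨hzx, hzy⟩, m, hm, hzm⟩
        refine ⟨?_, m, ⟨?_, ?_, hm⟩, hzm⟩
        · rintro rfl; exact hzx ⟨a, hwa, hxa⟩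
        · rintro rfl; exact hzy ⟨m, hzm, hyb⟩
        · rintro rfl; exact hzx ⟨m, hzm, hxa⟩
      · rintro ⟨hzw, m, ⟨hmb, hma, hm⟩, hzm⟩
        refine ⟨⟨?_, ?_⟩, m, hm, hzm⟩
        · intro hzx
          have hxm : ¬ I x m := fun hx => hma (h.un w x m a (hwx w hw) hm hx hwa hxa)
          exact hzw (h.tri hxm hzm hm hzx.symm ⟨a, hxa, hwa⟩)
        · intro hzy
          have hym : ¬ I y m := fun hy => hmb (h.un w y m b (hwy w hw) hm hy hwb hyb)
          exact hzw (h.tri hym hzm hm hzy.symm ⟨b, hyb, hwb⟩)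
    rw [h1, h.star w (((univ.filter (fun m => I w m)).erase a).erase b)
        (by intro m hm; simp only [Finset.mem_filter, Finset.mem_univ, true_and,
        Finset.mem_erase] at hm; exact hm.2.2) _ (by simp),
      Finset.card_erase_of_mem (by simp [hwb, hab.symm]), Finset.card_erase_of_mem (by simp [hwa]), h.ln]
    by_cases hq : q = 0
    · subst hq; simp
    · have : 1 ≤ q ^ 2 := Nat.one_le_pow _ _ (by omega)
      have e : q ^ 2 + 1 - 1 - 1 = q ^ 2 - 1 := by omega
      rw [e]
      push_cast [Nat.cast_sub this]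
      ring
  have hd2 : ∀ w ∈ C, ∀ w' ∈ C, w ≠ w' →
      (((O.filter (fun z => Col I w z ∧ Col I w' z)).card : ℕ) : ℤ) = q ^ 2 - 1 := by
    intro w hw w' hw' hne
    have h1 : O.filter (fun z => Col I w z ∧ Col I w' z) =
        ((univ.filter (fun z => Col I z w ∧ Col I z w')).erase x).erase y := by
      ext z
      simp only [hO, Finset.mem_filter, Finset.mem_univ, true_and, Finset.mem_erase]
      constructor
      · rintro ⟨⟨hzx, hzy⟩, h1, h2⟩
        refine ⟨?_, ?_, h1.symm, h2.symm⟩
        · rintro rfl; exact hzy (h.refl _)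
        · rintro rfl; exact hzx (h.refl _)
      · rintro ⟨hzy, hzx, h1, h2⟩
        have hh : ∀ v, Col I v w → Col I v w' → z ≠ v → ¬ Col I z v := by
          rintro v hvw hvw' hzv ⟨m, hzm, hvm⟩
          by_cases hwm : I w m
          · have hw'm : ¬ I w' m := fun hw'm => hnc w hw w' hw' hne ⟨m, hwm, hw'm⟩
            exact hzv (h.tri hw'm hzm hvm h2.symm hvw'.symm)
          · exact hzv (h.tri hwm hzm hvm h1.symm hvw.symm)
        exact ⟨⟨hh x (hCx w hw).1.symm (hCx w' hw').1.symm hzx,
          hh y (hCx w hw).2.symm (hCx w' hw').2.symm hzy⟩, h1.symm, h2.symm⟩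
    have hyx : y ≠ x := by
      rintro rfl
      exact hxy (h.refl _)
    rw [h1, Finset.card_erase_of_mem, Finset.card_erase_of_mem, h.cn (hnc w hw w' hw' hne)]
    · have h2 : 2 ≤ q ^ 2 + 1 := by
        rw [← hCc]
        exact Finset.one_lt_card.2 ⟨w, hw, w', hw', hne⟩
      have e : q ^ 2 + 1 - 1 - 1 = q ^ 2 - 1 := by omega
      rw [e]
      have : 1 ≤ q ^ 2 := by omega
      push_cast [Nat.cast_sub this]
      ring
    · simp only [Finset.mem_filter, Finset.mem_univ, true_and]
      exact ⟨(hCx w hw).1.symm, (hCx w' hw').1.symm⟩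
    · simp only [Finset.mem_filter, Finset.mem_univ, true_and, Finset.mem_erase]
      exact ⟨hyx, (hCx w hw).2.symm, (hCx w' hw').2.symm⟩
  -- first moment
  let t : P → ℕ := fun z => (C.filter (fun w => Col I w z)).card
  have hm1 : (∑ z ∈ O, (t z : ℤ)) = (q ^ 2 + 1) * ((q ^ 2 - 1) * q) := by
    have e := Finset.sum_card_bipartiteAbove_eq_sum_card_bipartiteBelow
      (fun (w z : P) => Col I w z) (s := C) (t := O)
    have e2 : ∑ z ∈ O, t z = ∑ w ∈ C, (O.filter (fun z => Col I w z)).card := e.symm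
    have e3 : (∑ z ∈ O, (t z : ℤ)) = ∑ w ∈ C, (((O.filter (fun z => Col I w z)).card : ℕ) : ℤ) := by
      exact_mod_cast e2
    rw [e3, Finset.sum_congr rfl hd1, Finset.sum_const, hCc]
    push_cast [nsmul_eq_mul]
    ring
  -- second moment
  have hm2 : (∑ z ∈ O, (t z : ℤ) ^ 2) = (q ^ 2 + 1) * ((q ^ 2 - 1) * q + q ^ 2 * (q ^ 2 - 1)) := by
    have e := Finset.sum_card_bipartiteAbove_eq_sum_card_bipartiteBelow
      (fun (w : P × P) (z : P) => Col I w.1 z ∧ Col I w.2 z) (s := C ×ˢ C) (t := O)
    have e1 : ∀ z ∈ O, (((C ×ˢ C).filter (fun w => Col I w.1 z ∧ Col I w.2 z)).card : ℤ) = (t z : ℤ) ^ 2 := by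
      intro z _
      have e0 : (C ×ˢ C).filter (fun w => Col I w.1 z ∧ Col I w.2 z) =
          (C.filter (fun w => Col I w z)) ×ˢ (C.filter (fun w => Col I w z)) := by
        ext w
        simp only [Finset.mem_filter, Finset.mem_product]
        tauto
      rw [e0, Finset.card_product]
      push_cast
      ring
    have e2 : ∑ z ∈ O, (((C ×ˢ C).filter (fun w => Col I w.1 z ∧ Col I w.2 z)).card : ℤ) =
        ∑ w ∈ C ×ˢ C, ((O.filter (fun z => Col I w.1 z ∧ Col I w.2 z)).card : ℤ) := by
      exact_mod_cast e.symm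
    rw [← Finset.sum_congr rfl e1, e2, Finset.sum_product]
    have e3 : ∀ w ∈ C, ∑ w' ∈ C, ((O.filter (fun z => Col I w z ∧ Col I w' z)).card : ℤ) =
        (q ^ 2 - 1) * q + q ^ 2 * (q ^ 2 - 1) := by
      intro w hw
      rw [← Finset.add_sum_erase C _ hw]
      have e4 : O.filter (fun z => Col I w z ∧ Col I w z) = O.filter (fun z => Col I w z) := by
        simp
      rw [e4, hd1 w hw]
      rw [Finset.sum_congr rfl (fun w' hw' => hd2 w hw w' (Finset.mem_of_mem_erase hw')
        (Finset.ne_of_mem_erase hw').symm), Finset.sum_const, Finset.card_erase_of_mem hw, hCc]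
      simp only [Nat.add_sub_cancel, nsmul_eq_mul]
      push_cast
      ring
    rw [Finset.sum_congr rfl e3, Finset.sum_const, hCc]
    push_cast [nsmul_eq_mul]
    ring
  -- variance zero
  have hvar : ∑ z ∈ O, ((t z : ℤ) - (q + 1)) ^ 2 = 0 := by
    have e : ∀ z ∈ O, ((t z : ℤ) - (q + 1)) ^ 2 = (t z : ℤ) ^ 2 - 2 * (q + 1) * (t z : ℤ) + (q + 1) ^ 2 := by
      intro z _; ring
    rw [Finset.sum_congr rfl e, Finset.sum_add_distrib, Finset.sum_sub_distrib, ← Finset.mul_sum, hm1, hm2,
      Finset.sum_const, nsmul_eq_mul, hOc]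
    ring
  have hz : z ∈ O := by simp [hO, hzx, hzy]
  have hz2 := (Finset.sum_eq_zero_iff_of_nonneg (fun z _ => sq_nonneg ((t z : ℤ) - (q + 1)))).1 hvar z hz
  have hz3 : (t z : ℤ) = q + 1 := by
    have := pow_eq_zero_iff (n := 2) (by norm_num) |>.1 hz2
    linarith
  have hz4 : t z = q + 1 := by exact_mod_cast hz3
  rw [← hz4]
  show _ = (C.filter (fun w => Col I w z)).card
  rw [hC, Finset.filter_filter]

end Q

end Pool.H63.GQ
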