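import Mathlib

/-!
# The group theoretic part
-/

set_option autoImplicit false

namespace Pool.H63.GQ

open Finset Classical

/-- a subgroup `T` acting on `Z` such that the elements of `T ∩ S` act trivially and the others without
fixed points -/
theorem semireg {N : Type*} [Group N] [Finite N] (S T : Subgroup N) {Z : Type*} [MulAction N Z]
    [Finite Z] (hSZ : ∀ s ∈ S, ∀ z : Z, s • z = z) (hT : ∀ t ∈ T, t ∉ S → ∀ z : Z, t • z ≠ z) :
    Nat.card T ∣ Nat.card Z * Nat.card (T ⊓ S : Subgroup N) := by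
  have := Fintype.ofFinite T
  have := Fintype.ofFinite Z
  have := Fintype.ofFinite N
  have e := MulAction.sum_card_fixedBy_eq_card_orbits_mul_card_group T Z
  have e1 : ∀ t : T, Fintype.card (MulAction.fixedBy Z t) = if (t : N) ∈ S then Fintype.card Z else 0 := by
    intro t
    split_ifs with h
    · rw [← Fintype.card_congr (Equiv.Set.univ Z)]
      apply Fintype.card_congr
      apply Equiv.setCongr
      ext z
      simp only [MulAction.mem_fixedBy, Set.mem_univ, iff_true]
      exact hSZ _ h z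
    · rw [Fintype.card_eq_zero_iff]
      refine ⟨fun z => ?_⟩
      exact hT t t.2 h z.1 z.2
  rw [Finset.sum_congr rfl (fun t _ => e1 t), ← Finset.sum_filter, Finset.sum_const, smul_eq_mul] at e
  have e2 : (univ.filter (fun t : T => (t : N) ∈ S)).card = Nat.card (T ⊓ S : Subgroup N) := by
    rw [Nat.card_eq_fintype_card]
    symm
    rw [Fintype.card_of_subtype ((univ.filter (fun t : T => (t : N) ∈ S)).map ⟨Subtype.val, Subtype.val_injective⟩)]
    · rw [Finset.card_map]
    · intro x
      simp [Subgroup.mem_inf, and_comm]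
  rw [e2] at e
  rw [Nat.card_eq_fintype_card, Nat.card_eq_fintype_card, mul_comm, e]
  exact Dvd.intro_left _ rfl

theorem la {N : Type*} [Group N] [Finite N] (S Q : Subgroup N) (hQn : Q.Normal) {Z : Type*}
    [MulAction N Z] [Finite Z] {q m : ℕ} (hq : q ≠ 0) (hm : m ≠ 0) (hN : Nat.card N = m * Nat.card S)
    (hZ : Nat.card Z = q ^ 2) (hSZ : ∀ s ∈ S, ∀ z : Z, s • z = z) (p : ℕ) [hp : Fact p.Prime] (hpm : p ^ (3 * q.factorization p) ∣ m) (σ : N)
    (hσQ : σ ∈ Q) (hσ : σ ≠ 1)
    (key : ∀ g : N, Commute g σ → (∃ k : ℕ, g ^ p ^ k = 1) → g ∉ S → ∀ z : Z, g • z ≠ z) :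
    p ^ (q.factorization p) < Nat.card Q := by
  obtain ⟨P⟩ : Nonempty (Sylow p N) := inferInstance
  set α := q.factorization p with hα
  set v := (Nat.card S).factorization p with hv
  have hS0 : Nat.card S ≠ 0 := Nat.card_pos.ne'
  have hP : p ^ (3 * α + v) ≤ Nat.card P := by
    rw [P.card_eq_multiplicity, hN, Nat.factorization_mul hm hS0]
    apply Nat.pow_le_pow_right hp.out.pos
    rw [Finsupp.add_apply]
    have := (hp.out.pow_dvd_iff_le_factorization hm).1 hpm
    omega
  set T : Subgroup N := (P : Subgroup N) ⊓ Subgroup.centralizer {σ} with hT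
  have hTP : T ≤ (P : Subgroup N) := inf_le_left
  have hTp : IsPGroup p T := P.isPGroup'.to_le hTP
  obtain ⟨τ, hτ⟩ := (IsPGroup.iff_card).1 hTp
  have hTd := semireg S T hSZ (by
    intro t ht htS z
    refine key t ?_ ?_ htS z
    · have h1 := (Subgroup.mem_inf.1 ht).2
      rw [Subgroup.mem_centralizer_iff] at h1
      exact (h1 σ (by simp)).symm
    · obtain ⟨k, hk⟩ := hTp ⟨t, ht⟩
      refine ⟨k, ?_⟩
      have := congrArg Subtype.val hk
      simpa using this)
  -- the order of T
  have hTS : Nat.card (T ⊓ S : Subgroup N) ∣ p ^ v := by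
    have h1 : IsPGroup p (T ⊓ S : Subgroup N) := hTp.to_le inf_le_left
    obtain ⟨k, hk⟩ := (IsPGroup.iff_card).1 h1
    rw [hk]
    apply pow_dvd_pow
    rw [hv]
    have h2 : p ^ k ∣ Nat.card S := by
      rw [← hk]
      exact Subgroup.card_dvd_of_le inf_le_right
    exact (hp.out.pow_dvd_iff_le_factorization hS0).1 h2
  have hTle : Nat.card T ∣ p ^ (2 * α + v) := by
    rw [hZ, hτ] at hTd
    have h1 : p ^ τ ∣ q ^ 2 * p ^ v := hTd.trans (Nat.mul_dvd_mul_left _ hTS)
    rw [hτ]
    apply pow_dvd_pow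
    have hne : q ^ 2 * p ^ v ≠ 0 := mul_ne_zero (pow_ne_zero _ hq) (pow_ne_zero _ hp.out.ne_zero)
    have h2 := (hp.out.pow_dvd_iff_le_factorization hne).1 h1
    rw [Nat.factorization_mul (pow_ne_zero _ hq) (pow_ne_zero _ hp.out.ne_zero), Nat.factorization_pow,
      Nat.Prime.factorization_pow hp.out] at h2
    simpa [hα] using h2
  -- orbit of σ
  have := Fintype.ofFinite N
  set Pf : Finset N := univ.filter (fun g => g ∈ (P : Subgroup N)) with hPf
  have hPfc : Pf.card = Nat.card P := by
    have : Nat.card P = Nat.card (P : Subgroup N) := rfl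
    rw [this, Nat.card_eq_fintype_card, Fintype.card_subtype]
  set Tf : Finset N := univ.filter (fun g => g ∈ T) with hTf
  have hTfc : Tf.card = Nat.card T := by
    rw [Nat.card_eq_fintype_card, Fintype.card_subtype]
  set Qf : Finset N := univ.filter (fun g => g ∈ Q) with hQf
  have hQfc : Qf.card = Nat.card Q := by
    rw [Nat.card_eq_fintype_card, Fintype.card_subtype]
  have hcard := Finset.card_le_mul_card_image (f := fun g : N => g * σ * g⁻¹) Pf (Nat.card T) (by
    intro b hb
    rw [Finset.mem_image] at hb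
    obtain ⟨g0, hg0, rfl⟩ := hb
    rw [← hTfc]
    apply Finset.card_le_card_of_injOn (fun g => g0⁻¹ * g)
    · intro g hg
      simp only [Finset.coe_filter, Set.mem_ofPred_eq, hPf, hTf, Finset.mem_filter, Finset.mem_univ, true_and]
        at hg hg0 ⊢
      obtain ⟨hgP, hge⟩ := hg
      rw [hT, Subgroup.mem_inf, Subgroup.mem_centralizer_iff]
      refine ⟨mul_mem (inv_mem hg0) hgP, ?_⟩
      intro h hh
      rw [Set.mem_singleton_iff] at hh
      subst hh
      have : g * h * g⁻¹ = g0 * h * g0⁻¹ := hge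
      have h2 : g * h = g0 * h * g0⁻¹ * g := by
        rw [← this]; group
      calc h * (g0⁻¹ * g) = g0⁻¹ * (g0 * h * g0⁻¹ * g) := by group
        _ = g0⁻¹ * (g * h) := by rw [h2]
        _ = g0⁻¹ * g * h := by group
    · intro g _ g' _ hgg
      exact mul_left_cancel hgg)
  have himg : (Pf.image (fun g : N => g * σ * g⁻¹)).card ≤ Nat.card Q - 1 := by
    have h1 : Pf.image (fun g : N => g * σ * g⁻¹) ⊆ Qf.erase 1 := by
      intro b hb
      rw [Finset.mem_image] at hb
      obtain ⟨g, _, rfl⟩ := hb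
      rw [Finset.mem_erase, hQf, Finset.mem_filter]
      refine ⟨?_, Finset.mem_univ _, hQn.conj_mem σ hσQ g⟩
      intro h1
      apply hσ
      have : σ = g⁻¹ * (g * σ * g⁻¹) * g := by group
      rw [this, h1]; group
    refine (Finset.card_le_card h1).trans ?_
    rw [Finset.card_erase_of_mem, hQfc]
    rw [hQf, Finset.mem_filter]
    exact ⟨Finset.mem_univ _, one_mem Q⟩
  rw [hPfc] at hcard
  have hTle' : Nat.card T ≤ p ^ (2 * α + v) := Nat.le_of_dvd (pow_pos hp.out.pos _) hTle
  have h3 : p ^ (3 * α + v) ≤ p ^ (2 * α + v) * (Nat.card Q - 1) :=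
    hP.trans (hcard.trans (Nat.mul_le_mul hTle' himg))
  have h4 : p ^ (3 * α + v) = p ^ (2 * α + v) * p ^ α := by
    rw [← pow_add]; congr 1; ring
  rw [h4] at h3
  have h5 := Nat.le_of_mul_le_mul_left h3 (pow_pos hp.out.pos _)
  have h6 : 0 < Nat.card Q := Nat.card_pos
  omega

/-- the Frattini step -/
theorem lb {G : Type*} [Group G] [Finite G] (S : Subgroup G) (hSn : S.Normal) {Z : Type*}
    [MulAction G Z] [Finite Z] {q m : ℕ} (hq : q ≠ 0) (hm : m ≠ 0) (hG : Nat.card G = m * q)
    (hS : Nat.card S = q)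
    (hZ : Nat.card Z = q ^ 2) (hSZ : ∀ s ∈ S, ∀ z : Z, s • z = z)
    (key : ∀ g σ : G, σ ∈ S → σ ≠ 1 → Commute g σ → (∃ k : ℕ, (g * σ) ^ k = σ) → g ∉ S → ∀ z : Z, g • z ≠ z)
    (p r : ℕ) (hp : p.Prime) (hr : r.Prime) (hpr : p ≠ r) (hrq : r ∣ q)
    (hpm : p ^ (3 * q.factorization p) ∣ m) :
    p ^ (q.factorization p) < r ^ (q.factorization r) := by
  have := Fact.mk hp
  have := Fact.mk hr
  obtain ⟨Q⟩ : Nonempty (Sylow r S) := inferInstance
  have hQc : Nat.card Q = r ^ (q.factorization r) := by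
    rw [Q.card_eq_multiplicity, hS]
  set Q' : Subgroup G := (Q : Subgroup S).map S.subtype with hQ'
  set N : Subgroup G := Subgroup.normalizer (Q' : Set G) with hN
  have hfr : N ⊔ S = ⊤ := Sylow.normalizer_sup_eq_top Q
  have hQ'S : Q' ≤ S := by
    rw [hQ']
    exact Subgroup.map_subtype_le _
  have hQ'N : Q' ≤ N := Subgroup.le_normalizer
  have hQ'c : Nat.card Q' = r ^ (q.factorization r) := by
    rw [← hQc, hQ']
    exact Nat.card_congr ((Q : Subgroup S).equivMapOfInjective S.subtype S.subtype_injective).symm.toEquiv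
  -- index computation
  have hind : (S.subgroupOf N).index = m := by
    have h1 : S.relIndex N = S.index := by
      rw [← Subgroup.relIndex_sup_right (H := N) (K := S), hfr, Subgroup.relIndex_top_right]
    have h2 := Subgroup.card_mul_index S
    rw [hS, hG] at h2
    have h3 : (S.subgroupOf N).index = S.relIndex N := rfl
    rw [h3, h1]
    have : q * S.index = q * m := by rw [h2]; ring
    exact Nat.eq_of_mul_eq_mul_left (Nat.pos_of_ne_zero hq) this
  have hNc : Nat.card N = m * Nat.card (S.subgroupOf N) := by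
    rw [← Subgroup.card_mul_index (S.subgroupOf N), hind, mul_comm]
  -- a nonidentity element of Q'
  have hQ1 : 1 < Nat.card Q' := by
    rw [hQ'c]
    apply Nat.one_lt_pow
    · have := (hr.dvd_iff_one_le_factorization hq).1 hrq
      omega
    · exact hr.one_lt
  obtain ⟨σ, hσ⟩ : ∃ σ : Q', σ ≠ 1 := by
    have := Finite.one_lt_card_iff_nontrivial.1 hQ1
    exact exists_ne 1
  have hQn : (Q'.subgroupOf N).Normal := Subgroup.normal_in_normalizer
  have hmain := la (N := N) (S.subgroupOf N) (Q'.subgroupOf N) hQn (Z := Z) hq hm hNc hZ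
    (by intro s hs z; exact hSZ s (Subgroup.mem_subgroupOf.1 hs) z) p hpm ⟨σ.1, hQ'N σ.2⟩
    (Subgroup.mem_subgroupOf.2 σ.2) (by
      intro h1
      apply hσ
      have := congrArg Subtype.val h1
      exact Subtype.ext this) (by
      rintro ⟨g, hgN⟩ hcomm ⟨k, hk⟩ hgS z
      have hcomm' : Commute g (σ : G) := by
        have := congrArg Subtype.val hcomm
        exact this
      have hgk : g ^ p ^ k = 1 := by
        have := congrArg Subtype.val hk
        simpa using this
      have hσr : (σ : G) ^ (r ^ (q.factorization r)) = 1 := by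
        have h1 : σ ^ Nat.card Q' = 1 := pow_card_eq_one'
        rw [hQ'c] at h1
        have := congrArg Subtype.val h1
        simpa using this
      have hpw : ∃ m : ℕ, (g * (σ : G)) ^ m = σ := by
        have hco : Nat.Coprime (p ^ k) (r ^ (q.factorization r)) :=
          Nat.Coprime.pow _ _ ((Nat.coprime_primes hp hr).2 hpr)
        obtain ⟨n, hm1, hm2⟩ := Nat.chineseRemainder hco 0 1
        refine ⟨n, ?_⟩
        rw [hcomm'.mul_pow]
        have h1 : g ^ n = 1 := by
          have h2 : p ^ k ∣ n := (Nat.modEq_zero_iff_dvd).1 hm1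
          obtain ⟨c, rfl⟩ := h2
          rw [pow_mul, hgk, one_pow]
        have h3 : (σ : G) ^ n = σ := by
          have h4 : (σ : G) ^ n = (σ : G) ^ 1 := by
            rw [pow_eq_pow_iff_modEq]
            exact hm2.of_dvd (orderOf_dvd_of_pow_eq_one hσr)
          rw [h4, pow_one]
        rw [h1, h3, one_mul]
      refine key g σ (hQ'S σ.2) (fun h => hσ (Subtype.ext h)) hcomm' hpw ?_ z
      intro hgS'
      exact hgS (Subgroup.mem_subgroupOf.2 hgS'))
  have hQc2 : Nat.card (Q'.subgroupOf N) = Nat.card Q' :=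
    Nat.card_congr (Subgroup.subgroupOfEquivOfLe hQ'N).toEquiv
  rw [hQc2, hQ'c] at hmain
  exact hmain

/-- at most one prime divisor of `q` has the fourth power of its part of `q` dividing the order of `G` -/
theorem two_primes {G : Type*} [Group G] [Finite G] (S : Subgroup G) (hSn : S.Normal) {Z : Type*}
    [MulAction G Z] [Finite Z] {q : ℕ} (hq : q ≠ 0) (hS : Nat.card S = q)
    (hZ : Nat.card Z = q ^ 2) (hSZ : ∀ s ∈ S, ∀ z : Z, s • z = z)
    (key : ∀ g σ : G, σ ∈ S → σ ≠ 1 → Commute g σ → (∃ k : ℕ, (g * σ) ^ k = σ) → g ∉ S → ∀ z : Z, g • z ≠ z)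
    {p r : ℕ} (hp : p.Prime) (hr : r.Prime) (hpr : p ≠ r) (hpq : p ∣ q) (hrq : r ∣ q)
    (hpG : p ^ (4 * q.factorization p) ∣ Nat.card G) (hrG : r ^ (4 * q.factorization r) ∣ Nat.card G) :
    False := by
  have hG : Nat.card G = S.index * q := by
    rw [← Subgroup.card_mul_index S, hS, mul_comm]
  have hm : S.index ≠ 0 := Subgroup.index_ne_zero_of_finite
  have hdiv : ∀ p : ℕ, p.Prime → p ^ (4 * q.factorization p) ∣ Nat.card G →
      p ^ (3 * q.factorization p) ∣ S.index := by
    intro p hp hpG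
    rw [hG, hp.pow_dvd_iff_le_factorization (mul_ne_zero hm hq), Nat.factorization_mul hm hq,
      Finsupp.add_apply] at hpG
    rw [hp.pow_dvd_iff_le_factorization hm]
    omega
  have h1 := lb S hSn hq hm hG hS hZ hSZ key p r hp hr hpr hrq (hdiv p hp hpG)
  have h2 := lb S hSn hq hm hG hS hZ hSZ key r p hr hp (Ne.symm hpr) hpq (hdiv r hr hrG)
  omega

end Pool.H63.GQ
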