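import Pool.Agent.H63.GQ.Geo

/-!
# Fixed points minus fixed lines of an automorphism, class by class
-/

set_option autoImplicit false

namespace Pool.H63.GQ

open Finset Classical

variable {P L : Type*} [Fintype P] [Fintype L] {I : P → L → Prop} {q : ℕ} {l0 : L}

/-- the points off `l0` collinear with the point `i` of `l0` -/
noncomputable def Cl (I : P → L → Prop) (l0 : L) (i : P) : Finset P :=
  univ.filter (fun p => ¬ I p l0 ∧ Col I p i)

/-- the lines through `i` other than `l0` -/
noncomputable def Zl (I : P → L → Prop) (l0 : L) (i : P) : Finset L :=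
  univ.filter (fun z => I i z ∧ z ≠ l0)

omit [Fintype L] in
theorem mem_Cl {i p : P} : p ∈ Cl I l0 i ↔ ¬ I p l0 ∧ Col I p i := by
  simp [Cl]

omit [Fintype P] in
theorem mem_Zl {i : P} {z : L} : z ∈ Zl I l0 i ↔ I i z ∧ z ≠ l0 := by
  simp [Zl]

namespace Q

theorem card_Cl (h : Q I q) {i : P} (hi : I i l0) : (Cl I l0 i).card = q ^ 3 := by
  unfold Cl
  rw [h.cls hi]; ring

theorem card_Zl (h : Q I q) {i : P} (hi : I i l0) : (Zl I l0 i).card = q ^ 2 := by
  have h1 : Zl I l0 i = (univ.filter (fun l => I i l)).erase l0 := by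
    ext z
    simp only [Zl, Finset.mem_filter, Finset.mem_erase, Finset.mem_univ, true_and]
    tauto
  rw [h1, Finset.card_erase_of_mem (by simp [hi]), h.ln]
  rfl

theorem cl_ne (h : Q I q) {i j m : P} (hi : I i l0) (hj : I j l0) (hij : j ≠ i)
    (hm : m ∈ Cl I l0 i) : ¬ Col I m j := by
  rw [mem_Cl] at hm
  intro hc
  exact hij (h.tri hm.1 hj hi hc hm.2)

/-- two collinear points of the class of `i` are on a line through `i` -/
theorem cl_line (h : Q I q) {i m m' : P} {k : L} (hi : I i l0)
    (hm : m ∈ Cl I l0 i) (hm' : m' ∈ Cl I l0 i) (hne : m ≠ m') (hk : I m k) (hk' : I m' k) :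
    I i k := by
  by_contra hik
  rw [mem_Cl] at hm hm'
  exact hne (h.tri hik hk hk' hm.2.symm hm'.2.symm)

theorem common (h : Q I q) {i j m m' : P} (hi : I i l0) (hj : I j l0) (hij : j ≠ i)
    (hm : m ∈ Cl I l0 i) (hm' : m' ∈ Cl I l0 i) :
    ((Cl I l0 j).filter (fun n => Col I m n ∧ Col I m' n)).card =
      if m = m' then q ^ 2 else if Col I m m' then 0 else q := by
  have hmj := h.cl_ne hi hj hij hm
  have hmj' := h.cl_ne hi hj hij hm'
  have hmm := mem_Cl.1 hm
  have hmm' := mem_Cl.1 hm'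
  split_ifs with h1 h2
  · subst h1
    have e : (Cl I l0 j).filter (fun n => Col I m n ∧ Col I m n) =
        (univ.filter (fun w => Col I w m ∧ Col I w j)).erase i := by
      ext n
      simp only [Cl, Finset.mem_filter, Finset.mem_erase, Finset.mem_univ, true_and]
      constructor
      · rintro ⟨⟨h1, h2⟩, h3, _⟩
        refine ⟨?_, h3.symm, h2⟩
        rintro rfl
        exact h1 hi
      · rintro ⟨h1, h2, h3⟩
        refine ⟨⟨?_, h3⟩, h2.symm, h2.symm⟩
        intro h4
        exact h1 (h.tri hmm.1 h4 hi h2.symm hmm.2)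
    rw [e, Finset.card_erase_of_mem, h.cn hmj]
    · rfl
    · simp only [Finset.mem_filter, Finset.mem_univ, true_and]
      exact ⟨hmm.2.symm, l0, hi, hj⟩
  · rw [Finset.card_eq_zero]
    rw [Finset.eq_empty_iff_forall_notMem]
    intro n hn
    rw [Finset.mem_filter, mem_Cl] at hn
    obtain ⟨⟨hn1, hn2⟩, hn3, hn4⟩ := hn
    obtain ⟨k, hk, hk'⟩ := h2
    have hik := h.cl_line hi hm hm' h1 hk hk'
    have hnk : ¬ I n k := by
      intro hnk
      exact hij (h.tri hn1 hj hi hn2 ⟨k, hnk, hik⟩)
    exact h1 (h.tri hnk hk hk' hn3.symm hn4.symm)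
  · have e : (Cl I l0 j).filter (fun n => Col I m n ∧ Col I m' n) =
        (univ.filter (fun w => (Col I w j ∧ Col I w m) ∧ Col I w m')).erase i := by
      ext n
      simp only [Cl, Finset.mem_filter, Finset.mem_erase, Finset.mem_univ, true_and]
      constructor
      · rintro ⟨⟨h1, h2⟩, h3, h4⟩
        refine ⟨?_, ⟨h2, h3.symm⟩, h4.symm⟩
        rintro rfl
        exact h1 hi
      · rintro ⟨h1, ⟨h2, h3⟩, h4⟩
        refine ⟨⟨?_, h2⟩, h3.symm, h4.symm⟩
        intro h5
        exact h1 (h.tri hmm.1 h5 hi h3.symm hmm.2)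
    rw [e, Finset.card_erase_of_mem, h.triad (x := j) (y := m) (z := m') (fun hc => hmj hc.symm) hmj'
      (fun hc => h2 hc.symm)]
    · rfl
    · simp only [Finset.mem_filter, Finset.mem_univ, true_and]
      exact ⟨⟨⟨l0, hi, hj⟩, hmm.2.symm⟩, hmm'.2.symm⟩

end Q

variable {G : Type*} [Group G] [MulAction G P] [MulAction G L]

/-- `G` acts by automorphisms fixing `l0` and all its points -/
structure Act (I : P → L → Prop) (l0 : L) (G : Type*) [Group G] [MulAction G P] [MulAction G L] : Prop where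
  pres : ∀ (g : G) p l, I (g • p) (g • l) ↔ I p l
  fixl : ∀ g : G, g • l0 = l0
  fixp : ∀ (g : G) i, I i l0 → g • i = i

/-- number of fixed points in the class of `i` -/
noncomputable def fl (I : P → L → Prop) (l0 : L) (i : P) (g : G) : ℕ :=
  ((Cl I l0 i).filter (fun m => g • m = m)).card

/-- number of fixed lines through `i` -/
noncomputable def fp (I : P → L → Prop) (l0 : L) (i : P) (g : G) : ℕ :=
  ((Zl I l0 i).filter (fun z => g • z = z)).card

namespace Act

omit [Fintype P] [Fintype L] in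
theorem col (ha : Act I l0 G) (g : G) {p p' : P} : Col I (g • p) (g • p') ↔ Col I p p' := by
  constructor
  · rintro ⟨l, h1, h2⟩
    refine ⟨g⁻¹ • l, ?_, ?_⟩
    · rw [← ha.pres g, smul_inv_smul]; exact h1
    · rw [← ha.pres g, smul_inv_smul]; exact h2
  · rintro ⟨l, h1, h2⟩
    exact ⟨g • l, (ha.pres g _ _).2 h1, (ha.pres g _ _).2 h2⟩

omit [Fintype P] [Fintype L] in
theorem col' (ha : Act I l0 G) (g : G) {p p' : P} : Col I (g • p) p' ↔ Col I p (g⁻¹ • p') := by
  conv_lhs => rw [← smul_inv_smul g p']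
  exact ha.col g

omit [Fintype L] in
theorem mem_cl (ha : Act I l0 G) (g : G) {i m : P} (hi : I i l0) : g • m ∈ Cl I l0 i ↔ m ∈ Cl I l0 i := by
  rw [mem_Cl, mem_Cl]
  have h1 : I (g • m) l0 ↔ I m l0 := by
    conv_lhs => rw [← ha.fixl g]
    exact ha.pres g _ _
  have h2 : Col I (g • m) i ↔ Col I m i := by
    conv_lhs => rw [← ha.fixp g i hi]
    exact ha.col g
  rw [h1, h2]

theorem fl_inv (g : G) (i : P) : fl I l0 i g⁻¹ = fl I l0 i g := by
  unfold fl
  congr 1
  apply Finset.filter_congr
  intro m _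
  rw [inv_smul_eq_iff]
  exact eq_comm

theorem fp_inv (g : G) (i : P) : fp I l0 i g⁻¹ = fp I l0 i g := by
  unfold fp
  congr 1
  apply Finset.filter_congr
  intro m _
  rw [inv_smul_eq_iff]
  exact eq_comm

/-- points of the class of `i` collinear with their image -/
theorem cl_col (h : Q I q) (ha : Act I l0 G) (g : G) {i : P} (hi : I i l0) :
    ((Cl I l0 i).filter (fun m => Col I m (g • m))).card = fp I l0 i g * q := by
  unfold fp
  refine h.star i ((Zl I l0 i).filter (fun z => g • z = z)) ?_ _ ?_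
  · intro z hz
    rw [Finset.mem_filter, mem_Zl] at hz
    exact hz.1.1
  · intro m
    rw [Finset.mem_filter]
    constructor
    · rintro ⟨hm, hc⟩
      have hm1 := mem_Cl.1 hm
      refine ⟨?_, ?_⟩
      · rintro rfl
        exact hm1.1 hi
      · obtain ⟨z, hmz, hiz⟩ := hm1.2
        have hzl : z ≠ l0 := by
          rintro rfl
          exact hm1.1 hmz
        have hmi : m ≠ i := by
          rintro rfl
          exact hm1.1 hi
        refine ⟨z, ?_, hmz⟩
        rw [Finset.mem_filter, mem_Zl]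
        refine ⟨⟨hiz, hzl⟩, ?_⟩
        have hgi : I i (g • z) := by
          rw [← ha.fixp g i hi]
          exact (ha.pres g _ _).2 hiz
        have hgm : I (g • m) (g • z) := (ha.pres g _ _).2 hmz
        have hgmi : g • m ≠ i := by
          intro hh
          apply hmi
          rw [← ha.fixp g i hi] at hh
          exact smul_left_cancel g hh
        by_cases hgmm : g • m = m
        · rw [hgmm] at hgm
          exact h.un m i (g • z) z hmi hgm hgi hmz hiz
        · obtain ⟨k, hk, hk'⟩ := hc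
          have hik := h.cl_line hi hm ((ha.mem_cl g hi).2 hm) (Ne.symm hgmm) hk hk'
          have e1 := h.un m i k z hmi hk hik hmz hiz
          have e2 := h.un (g • m) i k (g • z) hgmi hk' hik hgm hgi
          rw [← e2, e1]
    · rintro ⟨hmi, z, hz, hmz⟩
      rw [Finset.mem_filter, mem_Zl] at hz
      obtain ⟨⟨hiz, hzl⟩, hgz⟩ := hz
      refine ⟨?_, z, hmz, ?_⟩
      · rw [mem_Cl]
        refine ⟨?_, z, hmz, hiz⟩
        intro hml
        exact hzl (h.un m i z l0 hmi hmz hiz hml hi)
      · have := (ha.pres g m z).2 hmz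
        rwa [hgz] at this

theorem count (h : Q I q) (ha : Act I l0 G) (g : G) {i j : P} (hi : I i l0) (hj : I j l0) (hij : j ≠ i) :
    (∑ m ∈ Cl I l0 i, (((Cl I l0 j).filter (fun n => Col I m n ∧ Col I (g • m) n)).card : ℤ)) =
      (q : ℤ) ^ 4 + q ^ 2 * (fl I l0 i g - fp I l0 i g) := by
  have e1 : ∀ m ∈ Cl I l0 i, (((Cl I l0 j).filter (fun n => Col I m n ∧ Col I (g • m) n)).card : ℤ) =
      (q : ℤ) - q * (if Col I m (g • m) then 1 else 0) + q ^ 2 * (if g • m = m then 1 else 0) := by
    intro m hm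
    rw [h.common hi hj hij hm ((ha.mem_cl g hi).2 hm)]
    by_cases h1 : g • m = m
    · rw [if_pos h1.symm, if_pos h1, if_pos (by rw [h1]; exact h.refl m)]
      push_cast
      ring
    · rw [if_neg (fun hh => h1 hh.symm), if_neg h1]
      by_cases h2 : Col I m (g • m)
      · rw [if_pos h2, if_pos h2]; push_cast; ring
      · rw [if_neg h2, if_neg h2]; push_cast; ring
  rw [Finset.sum_congr rfl e1, Finset.sum_add_distrib, Finset.sum_sub_distrib, ← Finset.mul_sum,
    ← Finset.mul_sum, Finset.sum_boole, Finset.sum_boole, cl_col h ha g hi, Finset.sum_const, h.card_Cl hi]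
  unfold fl
  push_cast [nsmul_eq_mul]
  ring

/-- the number of fixed points minus the number of fixed lines is the same for all classes -/
theorem ident (h : Q I q) (hq : 1 ≤ q) (ha : Act I l0 G) (g : G) {i j : P} (hi : I i l0) (hj : I j l0) :
    (fl I l0 i g : ℤ) - fp I l0 i g = (fl I l0 j g : ℤ) - fp I l0 j g := by
  by_cases hij : j = i
  · rw [hij]
  · have e1 := count h ha g hi hj hij
    have e2 := count h ha g⁻¹ hj hi (Ne.symm hij)
    rw [fl_inv, fp_inv] at e2
    have e3 : (∑ m ∈ Cl I l0 i, (((Cl I l0 j).filter (fun n => Col I m n ∧ Col I (g • m) n)).card : ℤ)) =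
        ∑ n ∈ Cl I l0 j, (((Cl I l0 i).filter (fun m => Col I n m ∧ Col I (g⁻¹ • n) m)).card : ℤ) := by
      have e := Finset.sum_card_bipartiteAbove_eq_sum_card_bipartiteBelow
        (fun (m n : P) => Col I m n ∧ Col I (g • m) n) (s := Cl I l0 i) (t := Cl I l0 j)
      have e' : ∑ m ∈ Cl I l0 i, ((Cl I l0 j).filter (fun n => Col I m n ∧ Col I (g • m) n)).card =
        ∑ n ∈ Cl I l0 j, ((Cl I l0 i).filter (fun m => Col I n m ∧ Col I (g⁻¹ • n) m)).card := by
        refine e.trans (Finset.sum_congr rfl fun n _ => ?_)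
        unfold Finset.bipartiteBelow
        congr 1
        apply Finset.filter_congr
        intro m _
        show (Col I m n ∧ Col I (g • m) n) ↔ _
        rw [col_comm (p := n), col_comm (p := g⁻¹ • n), ha.col' g]
      exact_mod_cast e'
    rw [e3, e2] at e1
    have hq2 : (q : ℤ) ^ 2 ≠ 0 := by positivity
    have : (q : ℤ) ^ 2 * ((fl I l0 i g : ℤ) - fp I l0 i g) = q ^ 2 * ((fl I l0 j g : ℤ) - fp I l0 j g) := by
      linarith
    exact mul_left_cancel₀ hq2 this

end Act

end Pool.H63.GQ
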