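import Pool.Agent.H63.GQ.Sym
import Pool.Agent.H63.GQ.Grp

/-!
# Assembly
-/

set_option autoImplicit false

namespace Pool.H63.GQ

open Finset Classical

variable {P L : Type*} [Fintype P] [Fintype L] {I : P → L → Prop} {q : ℕ} {l0 : L}
variable {G : Type*} [Group G] [MulAction G P] [MulAction G L]

namespace Act

/-- the automorphisms in `G` fixing every line that meets `l0` -/
def Sy (_ : Act I l0 G) : Subgroup G where
  carrier := {g | ∀ z, (∃ i, I i l0 ∧ I i z) → g • z = z}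
  one_mem' := fun z _ => one_smul _ z
  mul_mem' := by
    intro a b ha hb z hz
    rw [mul_smul, hb z hz, ha z hz]
  inv_mem' := by
    intro a ha z hz
    rw [inv_smul_eq_iff]
    exact (ha z hz).symm

omit [Fintype P] [Fintype L] in
theorem mem_Sy (ha : Act I l0 G) {g : G} : g ∈ ha.Sy ↔ ∀ z, (∃ i, I i l0 ∧ I i z) → g • z = z := Iff.rfl

omit [Fintype P] [Fintype L] in
theorem Sy_normal (ha : Act I l0 G) : ha.Sy.Normal := by
  refine ⟨fun g hg k => ?_⟩
  intro z hz
  obtain ⟨i, hi, hiz⟩ := hz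
  have h1 : g • (k⁻¹ • z) = k⁻¹ • z := by
    apply hg
    refine ⟨i, hi, ?_⟩
    have := (ha.pres k⁻¹ i z).2 hiz
    rwa [ha.fixp k⁻¹ i hi] at this
  rw [mul_smul, mul_smul, h1, smul_inv_smul]

/-- members of `Sy` fix all lines of `Zl i`, and conversely -/
theorem mem_Sy_iff (ha : Act I l0 G) {g : G} : g ∈ ha.Sy ↔ ∀ i, I i l0 → ∀ z ∈ Zl I l0 i, g • z = z := by
  rw [mem_Sy]
  constructor
  · intro h i hi z hz
    exact h z ⟨i, hi, (mem_Zl.1 hz).1⟩
  · rintro h z ⟨i, hi, hiz⟩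
    by_cases hz : z = l0
    · rw [hz]; exact ha.fixl g
    · exact h i hi z (mem_Zl.2 ⟨hiz, hz⟩)

theorem two_pts (h : Q I q) (hq : 1 ≤ q) (l0 : L) : ∃ i j, I i l0 ∧ I j l0 ∧ i ≠ j := by
  have h1 : 1 < (univ.filter (fun p => I p l0)).card := by rw [h.pt]; omega
  obtain ⟨i, hi, j, hj, hij⟩ := Finset.one_lt_card.1 h1
  rw [Finset.mem_filter] at hi hj
  exact ⟨i, j, hi.2, hj.2, hij⟩

theorem psi_Sy (h : Q I q) (hq : 1 ≤ q) (ha : Act I l0 G) (hr : Semi I l0 G) {i j : P} (hi : I i l0)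
    (hj : I j l0) (hij : i ≠ j) {g : G} (hg : g ≠ 1) :
    g ∈ ha.Sy ↔ ((fl I l0 i g : ℤ) - fp I l0 i g) = -(q : ℤ) ^ 2 := by
  rw [mem_Sy_iff]
  constructor
  · intro hS
    have hfp : ∀ k, I k l0 → fp I l0 k g = q ^ 2 := by
      intro k hk
      unfold fp
      rw [Finset.filter_true_of_mem (hS k hk), h.card_Zl hk]
    have hfl : fl I l0 i g = 0 := by
      by_contra hne
      have := (fl_zero h ha hr hg hi hj hij hne).1
      rw [hfp j hj] at this
      have h2 : q = 0 := by simpa using this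
      omega
    rw [hfl, hfp i hi]
    push_cast; ring
  · intro hψ k hk z hz
    have e := ident h hq ha g hi hk
    rw [hψ] at e
    have h1 : fp I l0 k g = q ^ 2 := by
      apply le_antisymm (fp_le h g hk)
      have : (q : ℤ) ^ 2 ≤ fp I l0 k g := by
        have : (0 : ℤ) ≤ fl I l0 k g := by positivity
        linarith
      exact_mod_cast this
    unfold fp at h1
    rw [← h.card_Zl hk] at h1
    exact (Finset.filter_card_eq h1) z hz

/-- outside of `Sy`, an element without fixed points off `l0` fixes no line meeting `l0` other than `l0` -/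
theorem delta [Fintype G] (h : Q I q) (hq : 1 ≤ q) (ha : Act I l0 G) (hs : Semi I l0 G)
    (hc : Nat.card ha.Sy = q) {g : G}
    (hg : g ∉ ha.Sy) (hfix : ∀ m, ¬ I m l0 → g • m ≠ m) {i : P} (hi : I i l0) {z : L} (hz : z ∈ Zl I l0 i) :
    g • z ≠ z := by
  intro hgz
  obtain ⟨j, hj, hij⟩ : ∃ j, I j l0 ∧ i ≠ j := by
    obtain ⟨a, b, ha', hb', hab⟩ := two_pts h hq l0
    by_cases hia : i = a
    · exact ⟨b, hb', by rw [hia]; exact hab⟩
    · exact ⟨a, ha', hia⟩
  have hfl : ∀ k, fl I l0 k g = 0 := by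
    intro k
    unfold fl
    rw [Finset.card_eq_zero, Finset.filter_eq_empty_iff]
    intro m hm
    exact hfix m (mem_Cl.1 hm).1
  have h3 := ident h hq ha g hi hj
  rw [hfl i, hfl j] at h3
  have h4 : fp I l0 i g ≠ 0 := by
    unfold fp
    exact Finset.card_ne_zero.2 ⟨z, Finset.mem_filter.2 ⟨hz, hgz⟩⟩
  have h5 : fp I l0 j g ≠ 0 := by
    have : (fp I l0 i g : ℤ) = fp I l0 j g := by push_cast at h3; linarith
    have h6 : fp I l0 i g = fp I l0 j g := by exact_mod_cast this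
    rwa [← h6]
  unfold fp at h5
  obtain ⟨w, hw⟩ := Finset.card_ne_zero.1 h5
  rw [Finset.mem_filter] at hw
  obtain ⟨hw, hgw⟩ := hw
  -- the lines meeting z and w
  set Y := univ.filter (fun y => X I l0 y ∧ (∃ m, I m y ∧ I m z) ∧ ∃ m, I m y ∧ I m w) with hY
  have hYc : Y.card = q := h.card_meet2 hi hj hij hz hw
  have hmap : ∀ k : G, k • z = z → k • w = w → ∀ y ∈ Y, k • y ∈ Y := by
    intro k hkz hkw y hy
    rw [hY, Finset.mem_filter] at hy ⊢
    obtain ⟨_, hyX, hy1, hy2⟩ := hy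
    exact ⟨Finset.mem_univ _, (ha.memX k).2 hyX, (fix_ln h ha k hi hz hyX hy1).1 hkz,
      (fix_ln h ha k hj hw hyX hy2).1 hkw⟩
  obtain ⟨y, hy⟩ : Y.Nonempty := by
    rw [← Finset.card_pos, hYc]; omega
  have hyX : X I l0 y := by
    rw [hY, Finset.mem_filter] at hy
    exact hy.2.1
  -- the symmetries act regularly on Y
  have hinj : Set.InjOn (fun k : G => k • y) ((univ.filter (fun k : G => k ∈ ha.Sy)) : Set G) := by
    intro k _ k' _ hkk
    have hkk' : k • y = k' • y := hkk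
    have : k'⁻¹ * k = 1 := by
      apply hs _ y hyX
      rw [mul_smul, hkk', inv_smul_smul]
    exact (inv_mul_eq_one.1 this).symm
  have himg : (univ.filter (fun k : G => k ∈ ha.Sy)).image (fun k : G => k • y) = Y := by
    apply Finset.eq_of_subset_of_card_le
    · intro u hu
      rw [Finset.mem_image] at hu
      obtain ⟨k, hk, rfl⟩ := hu
      rw [Finset.mem_filter] at hk
      exact hmap k (ha.mem_Sy_iff.1 hk.2 i hi z hz) (ha.mem_Sy_iff.1 hk.2 j hj w hw) y hy
    · rw [Finset.card_image_of_injOn hinj, hYc, ← hc, Nat.card_eq_fintype_card, Fintype.card_subtype]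
  have hgy := hmap g hgz hgw y hy
  rw [← himg, Finset.mem_image] at hgy
  obtain ⟨k, hk, hky⟩ := hgy
  rw [Finset.mem_filter] at hk
  have : k⁻¹ * g = 1 := by
    apply hs _ y hyX
    rw [mul_smul, ← hky, inv_smul_smul]
  rw [inv_mul_eq_one] at this
  exact hg (this ▸ hk.2)

theorem card_Sy [Fintype G] (h : Q I q) (hq : 1 ≤ q) (ha : Act I l0 G) (hr : Reg I l0 G) :
    Nat.card ha.Sy = q := by
  obtain ⟨i, j, hi, hj, hij⟩ := two_pts h hq l0
  set ψ : G → ℤ := fun g => (fl I l0 i g : ℤ) - fp I l0 i g with hψ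
  have s1 : ∑ g : G, ψ g = 0 := by
    have h1 : (∑ g : G, (fl I l0 i g : ℤ)) = q ^ 5 := by exact_mod_cast sum_fl (G := G) h hq ha hr hi
    have h2 : (∑ g : G, (fp I l0 i g : ℤ)) = q ^ 5 := by exact_mod_cast sum_fp (G := G) h hq ha hr hi
    rw [hψ, Finset.sum_sub_distrib, h1, h2, sub_self]
  have hψ1 : ψ 1 = (q : ℤ) ^ 3 - q ^ 2 := by
    show (fl I l0 i (1 : G) : ℤ) - fp I l0 i (1 : G) = _
    unfold fl fp
    simp [h.card_Cl hi, h.card_Zl hi]
  have e1 : ∀ g : G, ψ g = (if g = 1 then (q : ℤ) ^ 3 else 0) - (q : ℤ) ^ 2 * (if g ∈ ha.Sy then 1 else 0) := by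
    intro g
    by_cases hg : g = 1
    · subst hg
      rw [hψ1, if_pos rfl, if_pos (one_mem _)]
      ring
    · rw [if_neg hg]
      by_cases hS : g ∈ ha.Sy
      · rw [if_pos hS]
        have := (psi_Sy h hq ha hr.semi hi hj hij hg).1 hS
        show (fl I l0 i g : ℤ) - fp I l0 i g = _
        rw [this]; ring
      · rw [if_neg hS]
        rcases dich h hq ha hr hi hj hij hg with h1 | h1
        · show (fl I l0 i g : ℤ) - fp I l0 i g = _
          rw [h1]; ring
        · exact absurd ((psi_Sy h hq ha hr.semi hi hj hij hg).2 h1) hS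
  rw [Finset.sum_congr rfl (fun g _ => e1 g), Finset.sum_sub_distrib, ← Finset.mul_sum, Finset.sum_boole,
    Finset.sum_ite_eq' univ (1 : G), if_pos (Finset.mem_univ _)] at s1
  have hc : (univ.filter (fun g : G => g ∈ ha.Sy)).card = Nat.card ha.Sy := by
    rw [Nat.card_eq_fintype_card, Fintype.card_subtype]
  rw [hc] at s1
  have hq2 : (q : ℤ) ^ 2 ≠ 0 := by positivity
  have : (q : ℤ) ^ 2 * (Nat.card ha.Sy : ℤ) = q ^ 2 * q := by
    have : (q : ℤ) ^ 3 = q ^ 2 * q := by ring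
    linarith
  exact_mod_cast mul_left_cancel₀ hq2 this

theorem main [Fintype G] (h : Q I q) (hq : 2 ≤ q) (ha : Act I l0 G) (hr : Semi I l0 G)
    (hc : Nat.card ha.Sy = q) {p r : ℕ} (hp : p.Prime) (hrp : r.Prime) (hpr : p ≠ r) (hpq : p ∣ q) (hrq : r ∣ q)
    (hpG : p ^ (4 * q.factorization p) ∣ Nat.card G) (hrG : r ^ (4 * q.factorization r) ∣ Nat.card G) :
    False := by
  have hq1 : 1 ≤ q := by omega
  obtain ⟨i, j, hi, hj, hij⟩ := two_pts h hq1 l0
  -- action on the lines through i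
  let Z : Type _ := {z : L // z ∈ Zl I l0 i}
  let act : MulAction G Z :=
    { smul := fun g z => ⟨g • z.1, (ha.mem_zl g hi).2 z.2⟩
      one_smul := fun z => Subtype.ext (one_smul G z.1)
      mul_smul := fun g k z => Subtype.ext (mul_smul g k z.1) }
  have hact : ∀ (g : G) (z : Z), (g • z).1 = g • z.1 := fun g z => rfl
  refine two_primes ha.Sy ha.Sy_normal (Z := Z) (q := q) (by omega) hc ?_ ?_ ?_ hp hrp hpr hpq hrq hpG hrG
  · rw [Nat.card_eq_fintype_card, Fintype.card_coe, h.card_Zl hi]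
  · intro s hs z
    apply Subtype.ext
    rw [hact]
    exact ha.mem_Sy_iff.1 hs i hi z.1 z.2
  · rintro g σ hσS hσ1 hcomm ⟨k, hk⟩ hgS z hgz
    have hgz' : g • z.1 = z.1 := by
      have := congrArg Subtype.val hgz
      rwa [hact] at this
    have hgσ : g * σ ∉ ha.Sy := by
      intro hh
      exact hgS ((Subgroup.mul_mem_cancel_right _ hσS).1 hh)
    have hfix : ∀ m, ¬ I m l0 → (g * σ) • m ≠ m := by
      intro m hm hgm
      have h1 : ∀ n : ℕ, (g * σ) ^ n • m = m := by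
        intro n
        induction n with
        | zero => rw [pow_zero, one_smul]
        | succ n ih => rw [pow_succ, mul_smul, hgm, ih]
      have h2 : σ • m = m := by rw [← hk]; exact h1 k
      -- class of m
      obtain ⟨y, u, hy1, hy2, hy3⟩ := h.ex m l0 hm
      have hmu : m ∈ Cl I l0 u := mem_Cl.2 ⟨hm, y, hy1, hy2⟩
      have hfl : fl I l0 u σ ≠ 0 := by
        unfold fl
        exact Finset.card_ne_zero.2 ⟨m, Finset.mem_filter.2 ⟨hmu, h2⟩⟩
      obtain ⟨v, hv, hvu⟩ : ∃ v, I v l0 ∧ u ≠ v := by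
        by_cases hui : u = i
        · exact ⟨j, hj, by rw [hui]; exact hij⟩
        · exact ⟨i, hi, hui⟩
      have h3 := (fl_zero h ha hr hσ1 hy3 hv hvu hfl).1
      have h4 : fp I l0 v σ = q ^ 2 := by
        unfold fp
        rw [Finset.filter_true_of_mem (ha.mem_Sy_iff.1 hσS v hv), h.card_Zl hv]
      rw [h4] at h3
      have h5 : q = 0 := by simpa using h3
      omega
    refine delta h hq1 ha hr hc hgσ hfix hi z.2 ?_
    rw [mul_smul, ha.mem_Sy_iff.1 hσS i hi z.1 z.2, hgz']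

theorem main_reg [Fintype G] (h : Q I q) (hq : 2 ≤ q) (ha : Act I l0 G) (hr : Reg I l0 G) :
    Nat.card ha.Sy = q ∧ IsPrimePow q := by
  have hq1 : 1 ≤ q := by omega
  have hc := card_Sy h hq1 ha hr
  refine ⟨hc, ?_⟩
  obtain ⟨i, j, hi, hj, hij⟩ := two_pts h hq1 l0
  have hG : Nat.card G = q ^ 5 := by
    rw [Nat.card_eq_fintype_card]; exact card_G h hq1 ha hr hi
  by_contra hcon
  obtain ⟨p, hp, hpq⟩ := Nat.exists_prime_and_dvd (show q ≠ 1 by omega)
  obtain ⟨r, hr', hrq, hpr⟩ : ∃ r : ℕ, r.Prime ∧ r ∣ q ∧ p ≠ r := by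
    by_contra hno
    push Not at hno
    apply hcon
    rw [isPrimePow_iff_unique_prime_dvd]
    exact ⟨p, ⟨hp, hpq⟩, fun r hr => (hno r hr.1 hr.2).symm⟩
  have hd : ∀ p : ℕ, p ^ (4 * q.factorization p) ∣ Nat.card G := by
    intro p
    rw [hG, mul_comm, pow_mul]
    exact (pow_dvd_pow_of_dvd (Nat.ordProj_dvd q p) 4).trans (pow_dvd_pow q (by norm_num))
  exact main h hq ha hr.semi hc hp hr' hpr hpq hrq (hd p) (hd r)

end Act

end Pool.H63.GQ
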