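import Pool.Agent.H63.GQ.Geo

/-!
# Groups of elations about a point
-/

set_option autoImplicit false

namespace Pool.H63.GQ

open Finset Classical

/-- an orbit of a `p`-group on `W` whose size divides the `p`-part of the size of `W` -/
theorem orb {G β : Type*} [Group G] [Finite G] [MulAction G β] (H : Subgroup G) {p : ℕ} [hp : Fact p.Prime]
    (hH : IsPGroup p H) (W : Finset β) (hW : W.Nonempty) (hinv : ∀ h ∈ H, ∀ w ∈ W, h • w ∈ W) :
    ∃ w ∈ W, Nat.card H ∣ p ^ (W.card.factorization p) * Nat.card (H ⊓ MulAction.stabilizer G w : Subgroup G) := by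
  by_contra hcon
  push Not at hcon
  have := Fintype.ofFinite G
  have := Fintype.ofFinite H
  let Z : Type _ := {w : β // w ∈ W}
  let act : MulAction H Z :=
    { smul := fun g z => ⟨(g : G) • z.1, hinv g g.2 z.1 z.2⟩
      one_smul := fun z => Subtype.ext (one_smul G z.1)
      mul_smul := fun g k z => Subtype.ext (mul_smul (g : G) (k : G) z.1) }
  have hact : ∀ (g : H) (z : Z), (g • z).1 = (g : G) • z.1 := fun g z => rfl
  have e := MulAction.card_eq_sum_card_group_div_card_stabilizer H Z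
  obtain ⟨k, hk⟩ := (IsPGroup.iff_card).1 hH
  have hW0 : W.card ≠ 0 := Finset.card_ne_zero.2 hW
  set v := W.card.factorization p with hv
  have hdvd : p ^ (v + 1) ∣ Fintype.card Z := by
    rw [e]
    apply Finset.dvd_sum
    intro ω _
    set z : Z := Quotient.out ω with hz
    have hst : Fintype.card (MulAction.stabilizer H z) = Nat.card (H ⊓ MulAction.stabilizer G z.1 : Subgroup G) := by
      rw [← Nat.card_eq_fintype_card]
      refine Nat.card_congr ⟨fun s => ⟨s.1.1, ?_⟩, fun s => ⟨⟨s.1, ?_⟩, ?_⟩, fun s => rfl, fun s => rfl⟩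
      · rw [Subgroup.mem_inf]
        refine ⟨s.1.2, ?_⟩
        rw [MulAction.mem_stabilizer_iff]
        have := congrArg Subtype.val (MulAction.mem_stabilizer_iff.1 s.2)
        rwa [hact] at this
      · exact (Subgroup.mem_inf.1 s.2).1
      · rw [MulAction.mem_stabilizer_iff]
        apply Subtype.ext
        rw [hact]
        exact MulAction.mem_stabilizer_iff.1 (Subgroup.mem_inf.1 s.2).2
    have hpg : IsPGroup p (H ⊓ MulAction.stabilizer G z.1 : Subgroup G) := hH.to_le inf_le_left
    obtain ⟨j, hj⟩ := (IsPGroup.iff_card).1 hpg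
    have hc := hcon z.1 z.2
    rw [hj, hk, ← pow_add] at hc
    have hlt : v + j < k := by
      by_contra hle
      exact hc (pow_dvd_pow _ (by omega))
    rw [hst, hj, ← Nat.card_eq_fintype_card, hk, Nat.pow_div (by omega) hp.out.pos]
    exact pow_dvd_pow _ (by omega)
  rw [Fintype.card_coe] at hdvd
  have := (hp.out.pow_dvd_iff_le_factorization hW0).1 hdvd
  omega

variable {P L : Type*} [Fintype P] [Fintype L] {I : P → L → Prop} {q : ℕ} {x : P}
variable {G : Type*} [Group G] [MulAction G P] [MulAction G L]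

/-- `G` acts by automorphisms fixing `x` and all lines through `x`, semiregularly on the points not collinear
with `x` -/
structure ActP (I : P → L → Prop) (x : P) (G : Type*) [Group G] [MulAction G P] [MulAction G L] : Prop where
  pres : ∀ (g : G) p l, I (g • p) (g • l) ↔ I p l
  fixx : ∀ g : G, g • x = x
  fixl : ∀ (g : G) l, I x l → g • l = l
  semi : ∀ (g : G) y, ¬ Col I x y → g • y = y → g = 1

namespace ActP

/-- elements fixing two lines that meet different lines through `x` off `x` -/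
theorem triv (h : Q I q) (ha : ActP I x G) {l l' M M' : L} (hl : I x l) (hl' : I x l') (hne : l ≠ l')
    {z z' : P} (hz : I z l) (hzM : I z M) (hzx : z ≠ x) (hM : M ≠ l) (hz' : I z' l') (hzM' : I z' M')
    (hzx' : z' ≠ x) (hM' : M' ≠ l') {g : G} (hgM : g • M = M) (hgM' : g • M' = M') : g = 1 := by
  -- g fixes z and z'
  have hfix : ∀ {l M : L} {z : P}, I x l → I z l → I z M → z ≠ x → M ≠ l → g • M = M → g • z = z := by
    intro l M z hl hz hzM hzx hM hgM
    have h1 : I (g • z) M := by
      have := (ha.pres g z M).2 hzM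
      rwa [hgM] at this
    have h2 : I (g • z) l := by
      have := (ha.pres g z l).2 hz
      rwa [ha.fixl g l hl] at this
    by_contra hne
    exact hM (h.un (g • z) z M l hne h1 hzM h2 hz)
  have hgz' := hfix hl' hz' hzM' hzx' hM' hgM'
  -- z' is not on M
  have hz'l : ¬ I z' l := by
    intro hh
    exact hne (h.un z' x l l' hzx' hh hl hz' hl')
  have hzz' : ¬ Col I z' z := by
    intro hc
    exact hzx (h.tri hz'l hz hl hc ⟨l', hz', hl'⟩)
  have hz'M : ¬ I z' M := fun hh => hzz' ⟨M, hh, hzM⟩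
  obtain ⟨k, y, h1, h2, h3⟩ := h.ex z' M hz'M
  have h1' : I z' (g • k) := by
    have := (ha.pres g z' k).2 h1
    rwa [hgz'] at this
  have h2' : I (g • y) (g • k) := (ha.pres g _ _).2 h2
  have h3' : I (g • y) M := by
    have := (ha.pres g y M).2 h3
    rwa [hgM] at this
  have hgk : g • k = k := h.tr z' M hz'M (g • k) k (g • y) y h1' h1 h2' h3' h2 h3
  have hgy : g • y = y := by
    rw [hgk] at h2'
    by_contra hne2
    have : k = M := h.un (g • y) y k M hne2 h2' h2 h3' h3
    rw [this] at h1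
    exact hz'M h1
  have hxM : ¬ I x M := fun hh => hM (h.un z x M l hzx hzM hh hz hl)
  apply ha.semi g y _ hgy
  intro hc
  have : y = z := h.tri hxM h3 hzM hc ⟨l, hl, hz⟩
  rw [this] at h2
  exact hzz' ⟨k, h1, h2⟩

/-- a `p`-subgroup of order larger than the cube of the `p`-part of `q` contains, for every line `l` through
`x`, an element of order `p` fixing a line that meets `l` off `x` -/
theorem exM [Finite G] (h : Q I q) (hq : q ≠ 0) (ha : ActP I x G) (H : Subgroup G) {p : ℕ} [hp : Fact p.Prime]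
    (hH : Nat.card H = p ^ (3 * q.factorization p + 1)) {l : L} (hl : I x l) :
    ∃ M z, I z l ∧ I z M ∧ z ≠ x ∧ M ≠ l ∧
      p ≤ Nat.card (H ⊓ MulAction.stabilizer G M : Subgroup G) := by
  have hHp : IsPGroup p H := IsPGroup.iff_card.2 ⟨_, hH⟩
  set W : Finset P := univ.filter (fun z => z ≠ x ∧ I z l) with hW
  have hWc : W.card = q := h.on_line hl
  have hWn : W.Nonempty := by rw [← Finset.card_pos, hWc]; omega
  obtain ⟨z, hz, hzd⟩ := orb H hHp W hWn (by
    intro g _ w hw
    rw [hW, Finset.mem_filter] at hw ⊢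
    refine ⟨Finset.mem_univ _, ?_, ?_⟩
    · intro hh
      apply hw.2.1
      rw [← ha.fixx g] at hh
      exact smul_left_cancel g hh
    · have := (ha.pres g w l).2 hw.2.2
      rwa [ha.fixl g l hl] at this)
  rw [hW, Finset.mem_filter] at hz
  obtain ⟨_, hzx, hzl⟩ := hz
  set H1 : Subgroup G := H ⊓ MulAction.stabilizer G z with hH1
  have hH1p : IsPGroup p H1 := hHp.to_le inf_le_left
  set V : Finset L := (univ.filter (fun M => I z M)).erase l with hV
  have hVc : V.card = q ^ 2 := by
    rw [hV, Finset.card_erase_of_mem (by simp [hzl]), h.ln]; rfl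
  have hVn : V.Nonempty := by rw [← Finset.card_pos, hVc]; positivity
  obtain ⟨M, hM, hMd⟩ := orb H1 hH1p V hVn (by
    intro g hg w hw
    have hgz : g • z = z := MulAction.mem_stabilizer_iff.1 (Subgroup.mem_inf.1 hg).2
    rw [hV, Finset.mem_erase, Finset.mem_filter] at hw ⊢
    refine ⟨?_, Finset.mem_univ _, ?_⟩
    · intro hh
      apply hw.1
      rw [← ha.fixl g l hl] at hh
      exact smul_left_cancel g hh
    · have := (ha.pres g z w).2 hw.2.2
      rwa [hgz] at this)
  rw [hV, Finset.mem_erase, Finset.mem_filter] at hM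
  refine ⟨M, z, hzl, hM.2.2, hzx, hM.1, ?_⟩
  have hle : (H1 ⊓ MulAction.stabilizer G M : Subgroup G) ≤ H ⊓ MulAction.stabilizer G M :=
    inf_le_inf_right _ inf_le_left
  have h1 : Nat.card (H1 ⊓ MulAction.stabilizer G M : Subgroup G) ≤
      Nat.card (H ⊓ MulAction.stabilizer G M : Subgroup G) :=
    Nat.le_of_dvd Nat.card_pos (Subgroup.card_dvd_of_le hle)
  refine le_trans ?_ h1
  rw [hWc] at hzd
  rw [hVc, Nat.factorization_pow, Finsupp.smul_apply, smul_eq_mul] at hMd
  have h2 : Nat.card H ∣ p ^ (q.factorization p) * (p ^ (2 * q.factorization p) *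
      Nat.card (H1 ⊓ MulAction.stabilizer G M : Subgroup G)) := hzd.trans (Nat.mul_dvd_mul_left _ hMd)
  rw [hH] at h2
  have h3 : p ^ (3 * q.factorization p) * p ∣ p ^ (3 * q.factorization p) *
      Nat.card (H1 ⊓ MulAction.stabilizer G M : Subgroup G) := by
    have e1 : p ^ (3 * q.factorization p) * p = p ^ (3 * q.factorization p + 1) := by rw [pow_succ]
    have e2 : p ^ (3 * q.factorization p) * Nat.card (H1 ⊓ MulAction.stabilizer G M : Subgroup G) =
      p ^ (q.factorization p) * (p ^ (2 * q.factorization p) *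
      Nat.card (H1 ⊓ MulAction.stabilizer G M : Subgroup G)) := by
      rw [← mul_assoc, ← pow_add]; congr 2; ring
    rw [e1, e2]; exact h2
  have h4 := Nat.dvd_of_mul_dvd_mul_left (pow_pos hp.out.pos _) h3
  exact Nat.le_of_dvd Nat.card_pos h4

theorem bound [Finite G] (h : Q I q) (hq : q ≠ 0) (ha : ActP I x G) {p : ℕ} (hp : p.Prime)
    (hpG : p ^ (3 * q.factorization p + 1) ∣ Nat.card G) : q ^ 2 < 2 * (p ^ (q.factorization p)) ^ 3 := by
  have := Fact.mk hp
  have := Fintype.ofFinite G
  obtain ⟨H, hH⟩ := Sylow.exists_subgroup_card_pow_prime p hpG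
  have hex : ∀ l : L, ∃ M z, I x l → (I z l ∧ I z M ∧ z ≠ x ∧ M ≠ l ∧
      p ≤ Nat.card (H ⊓ MulAction.stabilizer G M : Subgroup G)) := by
    intro l
    by_cases hl : I x l
    · obtain ⟨M, z, hh⟩ := exM h hq ha H hH hl
      exact ⟨M, z, fun _ => hh⟩
    · exact ⟨l, x, fun hh => absurd hh hl⟩
  choose M z hMz using hex
  let F : L → Finset G := fun l => (univ.filter (fun g : G => g ∈ (H ⊓ MulAction.stabilizer G (M l) : Subgroup G))).erase 1
  have hFc : ∀ l, I x l → p - 1 ≤ (F l).card := by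
    intro l hl
    have h1 := (hMz l hl).2.2.2.2
    have h2 : (univ.filter (fun g : G => g ∈ (H ⊓ MulAction.stabilizer G (M l) : Subgroup G))).card =
        Nat.card (H ⊓ MulAction.stabilizer G (M l) : Subgroup G) := by
      rw [Nat.card_eq_fintype_card, Fintype.card_subtype]
    show p - 1 ≤ ((univ.filter (fun g : G => g ∈ (H ⊓ MulAction.stabilizer G (M l) : Subgroup G))).erase 1).card
    rw [Finset.card_erase_of_mem (by simp [one_mem]), h2]
    omega
  have hdisj : ∀ l ∈ univ.filter (fun l => I x l), ∀ l' ∈ univ.filter (fun l => I x l), l ≠ l' →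
      Disjoint (F l) (F l') := by
    intro l hl l' hl' hne
    rw [Finset.mem_filter] at hl hl'
    rw [Finset.disjoint_left]
    intro g hg hg'
    have hg1 := Finset.mem_erase.1 hg
    have hg2 := Finset.mem_erase.1 hg'
    rw [Finset.mem_filter, Subgroup.mem_inf, MulAction.mem_stabilizer_iff] at hg1 hg2
    obtain ⟨a1, a2, a3, a4, _⟩ := hMz l hl.2
    obtain ⟨b1, b2, b3, b4, _⟩ := hMz l' hl'.2
    exact hg1.1 (triv h ha hl.2 hl'.2 hne a1 a2 a3 a4 b1 b2 b3 b4 hg1.2.2.2 hg2.2.2.2)
  have hsub : (univ.filter (fun l => I x l)).biUnion F ⊆ (univ.filter (fun g : G => g ∈ H)).erase 1 := by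
    intro g hg
    rw [Finset.mem_biUnion] at hg
    obtain ⟨l, _, hg⟩ := hg
    have hg1 := Finset.mem_erase.1 hg
    rw [Finset.mem_filter, Subgroup.mem_inf] at hg1
    rw [Finset.mem_erase, Finset.mem_filter]
    exact ⟨hg1.1, Finset.mem_univ _, hg1.2.2.1⟩
  have hc := Finset.card_le_card hsub
  rw [Finset.card_biUnion hdisj] at hc
  have hHc : (univ.filter (fun g : G => g ∈ H)).card = p ^ (3 * q.factorization p + 1) := by
    rw [← hH, Nat.card_eq_fintype_card, Fintype.card_subtype]
  rw [Finset.card_erase_of_mem (by simp [one_mem]), hHc] at hc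
  have hlow : (q ^ 2 + 1) * (p - 1) ≤ ∑ l ∈ univ.filter (fun l => I x l), (F l).card := by
    rw [← h.ln x, ← smul_eq_mul, ← Finset.sum_const]
    apply Finset.sum_le_sum
    intro l hl
    rw [Finset.mem_filter] at hl
    exact hFc l hl.2
  have h1 : (q ^ 2 + 1) * (p - 1) ≤ p ^ (3 * q.factorization p + 1) - 1 := hlow.trans hc
  have hp2 : 2 ≤ p := hp.two_le
  set A := p ^ (q.factorization p) with hA
  have hA3 : p ^ (3 * q.factorization p + 1) = A ^ 3 * p := by
    rw [hA, ← pow_mul, pow_succ]; congr 2; ring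
  rw [hA3] at h1
  obtain ⟨u, rfl⟩ : ∃ u, p = u + 1 := ⟨p - 1, by omega⟩
  have hu : 1 ≤ u := by omega
  have hApos : 0 < A := pow_pos hp.pos _
  by_contra hcon
  push Not at hcon
  rw [Nat.add_sub_cancel] at h1
  have h2 : (2 * A ^ 3 + 1) * u ≤ (q ^ 2 + 1) * u := Nat.mul_le_mul_right _ (by omega)
  have h3 : (2 * A ^ 3 + 1) * u ≤ A ^ 3 * (u + 1) - 1 := h2.trans h1
  have h4 : A ^ 3 * (u + 1) = A ^ 3 * u + A ^ 3 := by ring
  have h5 : A ^ 3 ≤ A ^ 3 * u := Nat.le_mul_of_pos_right _ hu
  have h6 : (2 * A ^ 3 + 1) * u = A ^ 3 * u + A ^ 3 * u + u := by ring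
  omega

theorem main [Finite G] (h : Q I q) (hq : q ≠ 0) (ha : ActP I x G) {p r : ℕ} (hp : p.Prime) (hr : r.Prime)
    (hpr : p ≠ r) (hpq : p ∣ q) (hrq : r ∣ q)
    (hpG : p ^ (3 * q.factorization p + 1) ∣ Nat.card G)
    (hrG : r ^ (3 * q.factorization r + 1) ∣ Nat.card G) : False := by
  have h1 := bound h hq ha hp hpG
  have h2 := bound h hq ha hr hrG
  set A := p ^ (q.factorization p) with hA
  set B := r ^ (q.factorization r) with hB
  have hA2 : p ≤ A := by
    rw [hA]
    exact Nat.le_self_pow (by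
      have := (hp.dvd_iff_one_le_factorization hq).1 hpq
      omega) _
  have hB2 : r ≤ B := by
    rw [hB]
    exact Nat.le_self_pow (by
      have := (hr.dvd_iff_one_le_factorization hq).1 hrq
      omega) _
  have hcop : Nat.Coprime A B := Nat.Coprime.pow _ _ ((Nat.coprime_primes hp hr).2 hpr)
  have hAB : A * B ≤ q := by
    apply Nat.le_of_dvd (Nat.pos_of_ne_zero hq)
    exact hcop.mul_dvd_of_dvd_of_dvd (Nat.ordProj_dvd q p) (Nat.ordProj_dvd q r)
  have hAB2 : (A * B) ^ 2 ≤ q ^ 2 := Nat.pow_le_pow_left hAB 2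
  have hp2 := hp.two_le
  have hr2 := hr.two_le
  have hne : A ≠ B := by
    intro hh
    rw [hh, Nat.coprime_self] at hcop
    omega
  have hApos : 0 < A ^ 2 := by positivity
  have hBpos : 0 < B ^ 2 := by positivity
  have h3 : B ^ 2 < 2 * A := by
    have : A ^ 2 * B ^ 2 < A ^ 2 * (2 * A) := by
      calc A ^ 2 * B ^ 2 = (A * B) ^ 2 := by ring
        _ ≤ q ^ 2 := hAB2
        _ < 2 * A ^ 3 := h1
        _ = A ^ 2 * (2 * A) := by ring
    exact Nat.lt_of_mul_lt_mul_left this
  have h4 : A ^ 2 < 2 * B := by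
    have : B ^ 2 * A ^ 2 < B ^ 2 * (2 * B) := by
      calc B ^ 2 * A ^ 2 = (A * B) ^ 2 := by ring
        _ ≤ q ^ 2 := hAB2
        _ < 2 * B ^ 3 := h2
        _ = B ^ 2 * (2 * B) := by ring
    exact Nat.lt_of_mul_lt_mul_left this
  rcases lt_or_gt_of_ne hne with hlt | hlt
  · nlinarith
  · nlinarith

end ActP

end Pool.H63.GQ
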