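import Pool.Agent.H63.GQ.Ident

/-!
# The symmetries about the base line
-/

set_option autoImplicit false

namespace Pool.H63.GQ

open Finset Classical

variable {P L : Type*} [Fintype P] [Fintype L] {I : P → L → Prop} {q : ℕ} {l0 : L}

/-- `l` has no point in common with `l0` -/
def X (I : P → L → Prop) (l0 l : L) : Prop := ∀ p, I p l → ¬ I p l0

namespace Q

/-- a line disjoint from `l0` has a point in every class -/
theorem x_ex (h : Q I q) {i : P} (hi : I i l0) {y : L} (hy : X I l0 y) :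
    ∃ m, m ∈ Cl I l0 i ∧ I m y := by
  have hiy : ¬ I i y := fun hh => hy i hh hi
  obtain ⟨k, u, h1, h2, h3⟩ := h.ex i y hiy
  exact ⟨u, mem_Cl.2 ⟨hy u h3, k, h2, h1⟩, h3⟩

theorem x_un (h : Q I q) {i : P} (hi : I i l0) {y : L} (hy : X I l0 y) {m m' : P}
    (hm : m ∈ Cl I l0 i) (hm' : m' ∈ Cl I l0 i) (h1 : I m y) (h2 : I m' y) : m = m' := by
  by_contra hne
  exact hy i (h.cl_line hi hm hm' hne h1 h2) hi

/-- lines disjoint from `l0` through a point off `l0` -/
theorem card_thru (h : Q I q) {i : P} (hi : I i l0) {m : P} (hm : m ∈ Cl I l0 i) :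
    (univ.filter (fun y => X I l0 y ∧ I m y)).card = q ^ 2 := by
  have hm' := mem_Cl.1 hm
  obtain ⟨z, hz, hiz⟩ := hm'.2
  have e : (univ.filter (fun y => X I l0 y ∧ I m y)) = (univ.filter (fun y => I m y)).erase z := by
    ext y
    simp only [Finset.mem_filter, Finset.mem_univ, true_and, Finset.mem_erase]
    constructor
    · rintro ⟨h1, h2⟩
      refine ⟨?_, h2⟩
      rintro rfl
      exact h1 i hiz hi
    · rintro ⟨h1, h2⟩
      refine ⟨?_, h2⟩
      intro p hp hp0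
      exact h1 (h.tr m l0 hm'.1 y z p i h2 hz hp hp0 hiz hi)
  rw [e, Finset.card_erase_of_mem (by simp [hz]), h.ln]
  rfl

/-- the number of lines disjoint from `l0` -/
theorem card_X (h : Q I q) {i : P} (hi : I i l0) : (univ.filter (fun y => X I l0 y)).card = q ^ 5 := by
  have key := Finset.card_mul_eq_card_mul (fun (m : P) (y : L) => I m y)
    (s := Cl I l0 i) (t := univ.filter (fun y => X I l0 y)) (m := q ^ 2) (n := 1) ?_ ?_
  · rw [mul_one, h.card_Cl hi] at key
    rw [← key]; ring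
  · intro m hm
    rw [← h.card_thru hi hm]
    congr 1
    ext y
    simp only [Finset.mem_bipartiteAbove, Finset.mem_filter, Finset.mem_univ, true_and]
  · intro y hy
    rw [Finset.mem_filter] at hy
    obtain ⟨m, hm, hmy⟩ := h.x_ex hi hy.2
    rw [Finset.card_eq_one]
    refine ⟨m, ?_⟩
    ext m'
    simp only [Finset.mem_bipartiteBelow, Finset.mem_singleton]
    constructor
    · rintro ⟨h1, h2⟩
      exact h.x_un hi hy.2 h1 hm h2 hmy
    · rintro rfl
      exact ⟨hm, hmy⟩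

/-- points of a line `z` through `i` other than `i` are in the class of `i` -/
theorem z_cl (h : Q I q) {i : P} (hi : I i l0) {z : L} (hz : z ∈ Zl I l0 i) {m : P} (hmi : m ≠ i)
    (hm : I m z) : m ∈ Cl I l0 i := by
  rw [mem_Zl] at hz
  rw [mem_Cl]
  exact ⟨fun hml => hz.2 (h.un m i z l0 hmi hm hz.1 hml hi), z, hm, hz.1⟩

/-- lines disjoint from `l0` meeting a line `z` through `i` -/
theorem card_meet (h : Q I q) {i : P} (hi : I i l0) {z : L} (hz : z ∈ Zl I l0 i) :
    (univ.filter (fun y => X I l0 y ∧ ∃ m, I m y ∧ I m z)).card = q ^ 3 := by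
  have hz' := mem_Zl.1 hz
  have key := Finset.card_mul_eq_card_mul (fun (m : P) (y : L) => I m y)
    (s := univ.filter (fun m => m ≠ i ∧ I m z))
    (t := univ.filter (fun y => X I l0 y ∧ ∃ m, I m y ∧ I m z)) (m := q ^ 2) (n := 1) ?_ ?_
  · rw [mul_one, h.on_line hz'.1] at key
    rw [← key]; ring
  · intro m hm
    rw [Finset.mem_filter] at hm
    rw [← h.card_thru hi (h.z_cl hi hz hm.2.1 hm.2.2)]
    congr 1
    ext y
    simp only [Finset.mem_bipartiteAbove, Finset.mem_filter, Finset.mem_univ, true_and]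
    constructor
    · rintro ⟨⟨h1, _⟩, h2⟩
      exact ⟨h1, h2⟩
    · rintro ⟨h1, h2⟩
      exact ⟨⟨h1, m, h2, hm.2.2⟩, h2⟩
  · intro y hy
    rw [Finset.mem_filter] at hy
    obtain ⟨_, hyX, m, hmy, hmz⟩ := hy
    have hmi : m ≠ i := by
      rintro rfl
      exact hyX m hmy hi
    have hyz : y ≠ z := by
      rintro rfl
      exact hyX i hz'.1 hi
    rw [Finset.card_eq_one]
    refine ⟨m, ?_⟩
    ext m'
    simp only [Finset.mem_bipartiteBelow, Finset.mem_filter, Finset.mem_univ, true_and,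
      Finset.mem_singleton]
    constructor
    · rintro ⟨⟨h1, h2⟩, h3⟩
      by_contra hne
      exact hyz (h.un m' m y z hne h3 hmy h2 hmz)
    · rintro rfl
      exact ⟨⟨hmi, hmz⟩, hmy⟩

/-- if a point of class `i` and a line `w` through `j` are given, the line through the point meeting `w`
is disjoint from `l0` -/
theorem join_X (h : Q I q) {i j : P} (hi : I i l0) (hj : I j l0) (hij : i ≠ j) {m : P} (hm : m ∈ Cl I l0 i)
    {w : L} (hw : w ∈ Zl I l0 j) {y : L} (hmy : I m y) {u : P} (huy : I u y) (huw : I u w) : X I l0 y := by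
  have hm' := mem_Cl.1 hm
  have hmj : ¬ Col I m j := h.cl_ne hi hj (Ne.symm hij) hm
  have huj : u ≠ j := by
    rintro rfl
    exact hmj ⟨y, hmy, huy⟩
  have hu := h.z_cl hj hw huj huw
  have hu' := mem_Cl.1 hu
  intro p hpy hpl
  have e1 : p = i := h.tri hm'.1 hpl hi ⟨y, hmy, hpy⟩ hm'.2
  have e2 : p = j := h.tri hu'.1 hpl hj ⟨y, huy, hpy⟩ hu'.2
  exact hij (e1.symm.trans e2)

/-- lines disjoint from `l0` meeting `z` and `w` -/
theorem card_meet2 (h : Q I q) {i j : P} (hi : I i l0) (hj : I j l0) (hij : i ≠ j) {z w : L}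
    (hz : z ∈ Zl I l0 i) (hw : w ∈ Zl I l0 j) :
    (univ.filter (fun y => X I l0 y ∧ (∃ m, I m y ∧ I m z) ∧ ∃ m, I m y ∧ I m w)).card = q := by
  have hz' := mem_Zl.1 hz
  have hw' := mem_Zl.1 hw
  have key := Finset.card_mul_eq_card_mul (fun (m : P) (y : L) => I m y)
    (s := univ.filter (fun m => m ≠ i ∧ I m z))
    (t := univ.filter (fun y => X I l0 y ∧ (∃ m, I m y ∧ I m z) ∧ ∃ m, I m y ∧ I m w)) (m := 1) (n := 1) ?_ ?_
  · rw [mul_one, mul_one, h.on_line hz'.1] at key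
    exact key.symm
  · intro m hm
    rw [Finset.mem_filter] at hm
    have hmc := h.z_cl hi hz hm.2.1 hm.2.2
    have hmj : ¬ Col I m j := h.cl_ne hi hj (Ne.symm hij) hmc
    have hmw : ¬ I m w := fun hh => hmj ⟨w, hh, hw'.1⟩
    obtain ⟨y, u, h1, h2, h3⟩ := h.ex m w hmw
    rw [Finset.card_eq_one]
    refine ⟨y, ?_⟩
    ext y'
    simp only [Finset.mem_bipartiteAbove, Finset.mem_filter, Finset.mem_univ, true_and,
      Finset.mem_singleton]
    constructor
    · rintro ⟨⟨_, _, u', h5, h6⟩, h4⟩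
      exact h.tr m w hmw y' y u' u h4 h1 h5 h6 h2 h3
    · rintro rfl
      exact ⟨⟨h.join_X hi hj hij hmc hw h1 h2 h3, ⟨m, h1, hm.2.2⟩, u, h2, h3⟩, h1⟩
  · intro y hy
    rw [Finset.mem_filter] at hy
    obtain ⟨_, hyX, ⟨m, hmy, hmz⟩, _⟩ := hy
    have hmi : m ≠ i := by
      rintro rfl
      exact hyX m hmy hi
    have hyz : y ≠ z := by
      rintro rfl
      exact hyX i hz'.1 hi
    rw [Finset.card_eq_one]
    refine ⟨m, ?_⟩
    ext m'
    simp only [Finset.mem_bipartiteBelow, Finset.mem_filter, Finset.mem_univ, true_and,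
      Finset.mem_singleton]
    constructor
    · rintro ⟨⟨h1, h2⟩, h3⟩
      by_contra hne
      exact hyz (h.un m' m y z hne h3 hmy h2 hmz)
    · rintro rfl
      exact ⟨⟨hmi, hmz⟩, hmy⟩

end Q

variable {G : Type*} [Group G] [MulAction G P] [MulAction G L]

/-- only the identity of `G` fixes a line disjoint from `l0` -/
def Semi (I : P → L → Prop) (l0 : L) (G : Type*) [Group G] [MulAction G L] : Prop :=
  ∀ (g : G) l, X I l0 l → g • l = l → g = 1

/-- `G` acts regularly on the lines disjoint from `l0` -/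
def Reg (I : P → L → Prop) (l0 : L) (G : Type*) [Group G] [MulAction G L] : Prop :=
  ∀ l l', X I l0 l → X I l0 l' → ∃! g : G, g • l = l'

omit [Fintype P] [Fintype L] [MulAction G P] in
theorem Reg.semi (hr : Reg I l0 G) : Semi I l0 G := by
  intro g y hy hgy
  obtain ⟨g0, _, hg0⟩ := hr y y hy hy
  exact (hg0 g hgy).trans (hg0 1 (one_smul _ _)).symm

namespace Act

omit [Fintype P] [Fintype L] in
theorem memX (ha : Act I l0 G) (g : G) {y : L} : X I l0 (g • y) ↔ X I l0 y := by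
  have key : ∀ (g : G) (y : L), X I l0 y → X I l0 (g • y) := by
    intro g y hy p hp hp0
    have h1 : I (g⁻¹ • p) y := by
      rw [← ha.pres g, smul_inv_smul]; exact hp
    have h2 : g⁻¹ • p = p := ha.fixp g⁻¹ p hp0
    rw [h2] at h1
    exact hy p h1 hp0
  constructor
  · intro hh
    have := key g⁻¹ _ hh
    rwa [inv_smul_smul] at this
  · exact key g y

omit [Fintype P] in
theorem mem_zl (ha : Act I l0 G) (g : G) {i : P} (hi : I i l0) {z : L} : g • z ∈ Zl I l0 i ↔ z ∈ Zl I l0 i := by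
  rw [mem_Zl, mem_Zl]
  have h1 : I i (g • z) ↔ I i z := by
    conv_lhs => rw [← ha.fixp g i hi]
    exact ha.pres g _ _
  have h2 : g • z ≠ l0 ↔ z ≠ l0 := by
    constructor
    · rintro hh rfl
      exact hh (ha.fixl g)
    · intro hh hg
      apply hh
      rw [← ha.fixl g] at hg
      exact smul_left_cancel g hg
  rw [h1, h2]

/-- an automorphism fixes a point of a line `y` iff the point is on the image of `y` -/
theorem fix_pt (h : Q I q) (ha : Act I l0 G) (g : G) {i m : P} (hi : I i l0) (hm : m ∈ Cl I l0 i) {y : L}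
    (hy : X I l0 y) (hmy : I m y) : g • m = m ↔ I m (g • y) := by
  have h1 : I (g • m) (g • y) := (ha.pres g _ _).2 hmy
  constructor
  · intro hh
    rwa [hh] at h1
  · intro hh
    exact h.x_un hi ((ha.memX g).2 hy) ((ha.mem_cl g hi).2 hm) hm h1 hh

theorem fix_ln (h : Q I q) (ha : Act I l0 G) (g : G) {i : P} (hi : I i l0) {z : L} (hz : z ∈ Zl I l0 i)
    {y : L} (hy : X I l0 y) (hyz : ∃ m, I m y ∧ I m z) : g • z = z ↔ ∃ m, I m (g • y) ∧ I m z := by
  obtain ⟨m, hmy, hmz⟩ := hyz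
  have hmi : m ≠ i := by
    rintro rfl
    exact hy m hmy hi
  have hm := h.z_cl hi hz hmi hmz
  have h1 : I (g • m) (g • y) := (ha.pres g _ _).2 hmy
  have h2 : I (g • m) (g • z) := (ha.pres g _ _).2 hmz
  have hgy := (ha.memX g).2 hy
  constructor
  · intro hh
    rw [hh] at h2
    exact ⟨g • m, h1, h2⟩
  · rintro ⟨n, hn1, hn2⟩
    have hni : n ≠ i := by
      rintro rfl
      exact hgy n hn1 hi
    have hn := h.z_cl hi hz hni hn2
    have e : g • m = n := h.x_un hi hgy ((ha.mem_cl g hi).2 hm) hn h1 hn1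
    rw [e] at h2
    exact h.un n i (g • z) z hni h2 (mem_Zl.1 ((ha.mem_zl g hi).2 hz)).1 hn2 (mem_Zl.1 hz).1

/-- (alpha) a nonidentity element fixing a point of class `i` fixes no line through `j` other than `l0` -/
theorem alpha (h : Q I q) (ha : Act I l0 G) (hr : Semi I l0 G) {g : G} (hg : g ≠ 1) {i j : P} (hi : I i l0)
    (hj : I j l0) (hij : i ≠ j) {m : P} (hm : m ∈ Cl I l0 i) (hgm : g • m = m) {w : L}
    (hw : w ∈ Zl I l0 j) : g • w ≠ w := by
  intro hgw
  have hmj : ¬ Col I m j := h.cl_ne hi hj (Ne.symm hij) hm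
  have hmw : ¬ I m w := fun hh => hmj ⟨w, hh, (mem_Zl.1 hw).1⟩
  obtain ⟨y, u, h1, h2, h3⟩ := h.ex m w hmw
  have hyX := h.join_X hi hj hij hm hw h1 h2 h3
  have h1' : I m (g • y) := by
    have := (ha.pres g m y).2 h1
    rwa [hgm] at this
  have h2' : I (g • u) (g • y) := (ha.pres g _ _).2 h2
  have h3' : I (g • u) w := by
    have := (ha.pres g u w).2 h3
    rwa [hgw] at this
  have hgy : g • y = y := h.tr m w hmw (g • y) y (g • u) u h1' h1 h2' h3' h2 h3
  exact hg (hr g y hyX hgy)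

/-- if there is a fixed point in the class of `i` there is a fixed line through `i` -/
theorem fl_fp (h : Q I q) (ha : Act I l0 G) (g : G) {i : P} (hi : I i l0) (hfl : fl I l0 i g ≠ 0) :
    fp I l0 i g ≠ 0 := by
  unfold fl at hfl
  obtain ⟨m, hm⟩ := Finset.card_ne_zero.1 hfl
  rw [Finset.mem_filter] at hm
  obtain ⟨hm, hgm⟩ := hm
  obtain ⟨z, hmz, hiz⟩ := (mem_Cl.1 hm).2
  have hmi : m ≠ i := by
    rintro rfl
    exact (mem_Cl.1 hm).1 hi
  have hz : z ∈ Zl I l0 i := by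
    rw [mem_Zl]
    refine ⟨hiz, ?_⟩
    rintro rfl
    exact (mem_Cl.1 hm).1 hmz
  have h1 : I m (g • z) := by
    have := (ha.pres g m z).2 hmz
    rwa [hgm] at this
  have h2 := (mem_Zl.1 ((ha.mem_zl g hi).2 hz)).1
  have hgz : g • z = z := h.un m i (g • z) z hmi h1 h2 hmz hiz
  unfold fp
  exact Finset.card_ne_zero.2 ⟨z, Finset.mem_filter.2 ⟨hz, hgz⟩⟩

theorem fl_zero (h : Q I q) (ha : Act I l0 G) (hr : Semi I l0 G) {g : G} (hg : g ≠ 1) {i j : P} (hi : I i l0)
    (hj : I j l0) (hij : i ≠ j) (hfl : fl I l0 i g ≠ 0) : fp I l0 j g = 0 ∧ fl I l0 j g = 0 := by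
  have h1 : fp I l0 j g = 0 := by
    unfold fl at hfl
    obtain ⟨m, hm⟩ := Finset.card_ne_zero.1 hfl
    rw [Finset.mem_filter] at hm
    unfold fp
    rw [Finset.card_eq_zero, Finset.filter_eq_empty_iff]
    intro w hw
    exact alpha h ha hr hg hi hj hij hm.1 hm.2 hw
  refine ⟨h1, ?_⟩
  by_contra h2
  exact fl_fp h ha g hj h2 h1

theorem fp_le (h : Q I q) (g : G) {i : P} (hi : I i l0) : fp I l0 i g ≤ q ^ 2 := by
  rw [← h.card_Zl hi]
  exact Finset.card_filter_le _ _

theorem bounds (h : Q I q) (hq : 1 ≤ q) (ha : Act I l0 G) (hr : Semi I l0 G) {g : G} (hg : g ≠ 1) {i j : P}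
    (hi : I i l0) (hj : I j l0) (hij : i ≠ j) :
    ((fl I l0 i g : ℤ) - fp I l0 i g) ≤ 0 ∧ -(q : ℤ) ^ 2 ≤ ((fl I l0 i g : ℤ) - fp I l0 i g) ∧
      (fp I l0 i g : ℤ) * fp I l0 j g = ((fl I l0 i g : ℤ) - fp I l0 i g) ^ 2 := by
  have hid := ident h hq ha g hi hj
  have hq2 : (0 : ℤ) ≤ (q : ℤ) ^ 2 := by positivity
  by_cases h1 : fl I l0 i g = 0
  · by_cases h2 : fl I l0 j g = 0
    · rw [h1, h2] at hid
      rw [h1]
      have h3 : (fp I l0 i g : ℤ) ≤ q ^ 2 := by exact_mod_cast fp_le h g hi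
      have h4 : (0 : ℤ) ≤ fp I l0 i g := by positivity
      refine ⟨by push_cast; linarith, by push_cast; linarith, ?_⟩
      have h5 : (fp I l0 j g : ℤ) = fp I l0 i g := by push_cast at hid; linarith
      rw [h5]; push_cast; ring
    · obtain ⟨h3, h4⟩ := fl_zero h ha hr hg hj hi (Ne.symm hij) h2
      rw [h3, h4]
      refine ⟨by simp, by push_cast; linarith, by simp⟩
  · obtain ⟨h3, h4⟩ := fl_zero h ha hr hg hi hj hij h1
    rw [hid, h3, h4]
    refine ⟨by simp, by push_cast; linarith, by simp⟩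

section sums

variable [Fintype G]

theorem reg_card (ha : Act I l0 G) (hr : Reg I l0 G) {y : L} (hy : X I l0 y) (S : Finset L)
    (hS : ∀ l ∈ S, X I l0 l) : (univ.filter (fun g : G => g • y ∈ S)).card = S.card := by
  apply Finset.card_nbij (fun g : G => g • y)
  · intro g hg
    exact (Finset.mem_filter.1 hg).2
  · intro g _ g' _ hgg
    have hgg' : g • y = g' • y := hgg
    obtain ⟨g0, _, hg0⟩ := hr y (g • y) hy ((ha.memX g).2 hy)
    exact (hg0 g rfl).trans (hg0 g' hgg'.symm).symm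
  · intro l hl
    obtain ⟨g0, hg0, _⟩ := hr y l hy (hS l hl)
    refine ⟨g0, ?_, hg0⟩
    simp only [Finset.coe_filter, Finset.mem_univ, true_and, Set.mem_setOf_eq]
    have : g0 • y = l := hg0
    rw [this]; exact hl

theorem exX (h : Q I q) (hq : 1 ≤ q) {i : P} (hi : I i l0) : ∃ y, X I l0 y := by
  have h1 : (univ.filter (fun y => X I l0 y)).Nonempty := by
    rw [← Finset.card_pos, h.card_X hi]; positivity
  obtain ⟨y, hy⟩ := h1
  exact ⟨y, (Finset.mem_filter.1 hy).2⟩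

theorem card_G (h : Q I q) (hq : 1 ≤ q) (ha : Act I l0 G) (hr : Reg I l0 G) {i : P} (hi : I i l0) :
    Fintype.card G = q ^ 5 := by
  obtain ⟨y, hy⟩ := exX h hq hi
  have := reg_card ha hr hy (univ.filter (fun y => X I l0 y)) (by simp)
  rw [h.card_X hi] at this
  rw [← this, ← Finset.card_univ]
  congr 1
  ext g
  simp [ha.memX g, hy]

theorem stab_pt (h : Q I q) (hq : 1 ≤ q) (ha : Act I l0 G) (hr : Reg I l0 G) {i m : P} (hi : I i l0)
    (hm : m ∈ Cl I l0 i) : (univ.filter (fun g : G => g • m = m)).card = q ^ 2 := by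
  have hne : (univ.filter (fun y => X I l0 y ∧ I m y)).Nonempty := by
    rw [← Finset.card_pos, h.card_thru hi hm]; positivity
  obtain ⟨y, hy⟩ := hne
  rw [Finset.mem_filter] at hy
  obtain ⟨_, hyX, hmy⟩ := hy
  rw [← h.card_thru hi hm, ← reg_card (G := G) ha hr hyX (univ.filter (fun y => X I l0 y ∧ I m y)) (by simp; tauto)]
  congr 1
  apply Finset.filter_congr
  intro g _
  rw [fix_pt h ha g hi hm hyX hmy]
  simp [ha.memX g, hyX]

theorem stab_ln (h : Q I q) (hq : 1 ≤ q) (ha : Act I l0 G) (hr : Reg I l0 G) {i : P} (hi : I i l0) {z : L}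
    (hz : z ∈ Zl I l0 i) : (univ.filter (fun g : G => g • z = z)).card = q ^ 3 := by
  have hne : (univ.filter (fun y => X I l0 y ∧ ∃ m, I m y ∧ I m z)).Nonempty := by
    rw [← Finset.card_pos, h.card_meet hi hz]; positivity
  obtain ⟨y, hy⟩ := hne
  rw [Finset.mem_filter] at hy
  obtain ⟨_, hyX, hmy⟩ := hy
  rw [← h.card_meet hi hz, ← reg_card (G := G) ha hr hyX
    (univ.filter (fun y => X I l0 y ∧ ∃ m, I m y ∧ I m z)) (by simp; tauto)]
  congr 1
  apply Finset.filter_congr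
  intro g _
  rw [fix_ln h ha g hi hz hyX hmy]
  simp [ha.memX g, hyX]

theorem stab_ln2 (h : Q I q) (hq : 1 ≤ q) (ha : Act I l0 G) (hr : Reg I l0 G) {i j : P} (hi : I i l0)
    (hj : I j l0) (hij : i ≠ j) {z w : L} (hz : z ∈ Zl I l0 i) (hw : w ∈ Zl I l0 j) :
    (univ.filter (fun g : G => g • z = z ∧ g • w = w)).card = q := by
  have hne : (univ.filter (fun y => X I l0 y ∧ (∃ m, I m y ∧ I m z) ∧ ∃ m, I m y ∧ I m w)).Nonempty := by
    rw [← Finset.card_pos, h.card_meet2 hi hj hij hz hw]; positivity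
  obtain ⟨y, hy⟩ := hne
  rw [Finset.mem_filter] at hy
  obtain ⟨_, hyX, hmy, hmw⟩ := hy
  have e1 := h.card_meet2 hi hj hij hz hw
  have e2 := reg_card (G := G) ha hr hyX
    (univ.filter (fun y => X I l0 y ∧ (∃ m, I m y ∧ I m z) ∧ ∃ m, I m y ∧ I m w)) (by simp; tauto)
  rw [e1] at e2
  rw [← e2]
  congr 1
  apply Finset.filter_congr
  intro g _
  rw [fix_ln h ha g hi hz hyX hmy, fix_ln h ha g hj hw hyX hmw]
  simp [ha.memX g, hyX]

theorem sum_fl (h : Q I q) (hq : 1 ≤ q) (ha : Act I l0 G) (hr : Reg I l0 G) {i : P} (hi : I i l0) :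
    ∑ g : G, fl I l0 i g = q ^ 5 := by
  unfold fl
  have e := Finset.sum_card_bipartiteAbove_eq_sum_card_bipartiteBelow
    (fun (g : G) (m : P) => g • m = m) (s := univ) (t := Cl I l0 i)
  unfold Finset.bipartiteAbove Finset.bipartiteBelow at e
  rw [e, Finset.sum_congr rfl (fun m hm => stab_pt h hq ha hr hi hm), Finset.sum_const, h.card_Cl hi,
    smul_eq_mul]
  ring

theorem sum_fp (h : Q I q) (hq : 1 ≤ q) (ha : Act I l0 G) (hr : Reg I l0 G) {i : P} (hi : I i l0) :
    ∑ g : G, fp I l0 i g = q ^ 5 := by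
  unfold fp
  have e := Finset.sum_card_bipartiteAbove_eq_sum_card_bipartiteBelow
    (fun (g : G) (z : L) => g • z = z) (s := univ) (t := Zl I l0 i)
  unfold Finset.bipartiteAbove Finset.bipartiteBelow at e
  rw [e, Finset.sum_congr rfl (fun m hm => stab_ln h hq ha hr hi hm), Finset.sum_const, h.card_Zl hi,
    smul_eq_mul]
  ring

theorem sum_fp2 (h : Q I q) (hq : 1 ≤ q) (ha : Act I l0 G) (hr : Reg I l0 G) {i j : P} (hi : I i l0)
    (hj : I j l0) (hij : i ≠ j) : ∑ g : G, fp I l0 i g * fp I l0 j g = q ^ 5 := by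
  have e := Finset.sum_card_bipartiteAbove_eq_sum_card_bipartiteBelow
    (fun (g : G) (z : L × L) => g • z.1 = z.1 ∧ g • z.2 = z.2) (s := univ) (t := Zl I l0 i ×ˢ Zl I l0 j)
  unfold Finset.bipartiteAbove Finset.bipartiteBelow at e
  have e1 : ∀ g : G, fp I l0 i g * fp I l0 j g =
      ((Zl I l0 i ×ˢ Zl I l0 j).filter (fun z : L × L => g • z.1 = z.1 ∧ g • z.2 = z.2)).card := by
    intro g
    unfold fp
    rw [← Finset.card_product]
    congr 1
    ext z
    simp only [Finset.mem_filter, Finset.mem_product]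
    tauto
  rw [Finset.sum_congr rfl (fun g _ => e1 g), e, Finset.sum_congr rfl (fun z hz =>
    stab_ln2 h hq ha hr hi hj hij (Finset.mem_product.1 hz).1 (Finset.mem_product.1 hz).2),
    Finset.sum_const, Finset.card_product, h.card_Zl hi, h.card_Zl hj, smul_eq_mul]
  ring

/-- the dichotomy -/
theorem dich (h : Q I q) (hq : 1 ≤ q) (ha : Act I l0 G) (hr : Reg I l0 G) {i j : P} (hi : I i l0)
    (hj : I j l0) (hij : i ≠ j) {g : G} (hg : g ≠ 1) :
    ((fl I l0 i g : ℤ) - fp I l0 i g) = 0 ∨ ((fl I l0 i g : ℤ) - fp I l0 i g) = -(q : ℤ) ^ 2 := by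
  set ψ : G → ℤ := fun g => (fl I l0 i g : ℤ) - fp I l0 i g with hψ
  have hone_fl : (fl I l0 i (1 : G) : ℤ) = q ^ 3 := by
    unfold fl
    simp [h.card_Cl hi]
  have hone_fp : ∀ k : P, I k l0 → (fp I l0 k (1 : G) : ℤ) = q ^ 2 := by
    intro k hk
    unfold fp
    simp [h.card_Zl hk]
  have s1 : ∑ g : G, ψ g = 0 := by
    have h1 : (∑ g : G, (fl I l0 i g : ℤ)) = q ^ 5 := by exact_mod_cast sum_fl (G := G) h hq ha hr hi
    have h2 : (∑ g : G, (fp I l0 i g : ℤ)) = q ^ 5 := by exact_mod_cast sum_fp (G := G) h hq ha hr hi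
    rw [hψ, Finset.sum_sub_distrib, h1, h2, sub_self]
  have s2 : (∑ g : G, (fp I l0 i g : ℤ) * fp I l0 j g) = q ^ 5 := by
    exact_mod_cast sum_fp2 (G := G) h hq ha hr hi hj hij
  rw [← Finset.add_sum_erase univ _ (Finset.mem_univ (1 : G))] at s1 s2
  have s3 : ∑ g ∈ univ.erase (1 : G), (fp I l0 i g : ℤ) * fp I l0 j g = ∑ g ∈ univ.erase (1 : G), ψ g ^ 2 := by
    apply Finset.sum_congr rfl
    intro g hg
    exact (bounds h hq ha hr.semi (Finset.ne_of_mem_erase hg) hi hj hij).2.2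
  have s4 : ∑ g ∈ univ.erase (1 : G), (-ψ g) * (q ^ 2 + ψ g) = 0 := by
    have e : ∀ g ∈ univ.erase (1 : G), (-ψ g) * ((q : ℤ) ^ 2 + ψ g) = -(q : ℤ) ^ 2 * ψ g - ψ g ^ 2 := by
      intro g _; ring
    rw [Finset.sum_congr rfl e, Finset.sum_sub_distrib, ← Finset.mul_sum, ← s3]
    have h1 : ∑ g ∈ univ.erase (1 : G), ψ g = -(q ^ 3 - q ^ 2) := by
      have : ψ 1 = q ^ 3 - q ^ 2 := by
        show (fl I l0 i (1 : G) : ℤ) - fp I l0 i (1 : G) = _
        rw [hone_fl, hone_fp i hi]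
      rw [this] at s1
      linarith
    have h2 : ∑ g ∈ univ.erase (1 : G), (fp I l0 i g : ℤ) * fp I l0 j g = q ^ 5 - q ^ 4 := by
      rw [hone_fp i hi, hone_fp j hj] at s2
      linarith
    rw [h1, h2]; ring
  have s5 := (Finset.sum_eq_zero_iff_of_nonneg (fun g hg => by
    have hb := bounds h hq ha hr.semi (Finset.ne_of_mem_erase hg) hi hj hij
    exact mul_nonneg (by linarith [hb.1]) (by linarith [hb.2.1]))).1 s4 g
    (Finset.mem_erase.2 ⟨hg, Finset.mem_univ _⟩)
  rcases mul_eq_zero.1 s5 with h1 | h1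
  · left; exact neg_eq_zero.1 h1
  · right
    have : ψ g = -(q : ℤ) ^ 2 := by linarith
    exact this

end sums

end Act

end Pool.H63.GQ
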